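import Pool.Agent.U147.Stab.Proc

/-!
# Covering the range of the process
-/

set_option autoImplicit false

open MeasureTheory ProbabilityTheory Set Filter Topology
open scoped NNReal ENNReal

namespace Pool.Agent.U147.Stab

/-- the clock at scale `d` -/
noncomputable def WW (d t : ℝ) (ω : Om) : ℝ := ∑' p, bs (hW d t) (ω p)

theorem hW_le {d t : ℝ} (hd : 0 < d) (e : ℝ × ℝ) : hW d t e ≤ d⁻¹ * hA t e := by
  unfold hW hA
  split_ifs
  · refine (min_le_right _ _).trans ?_
    rw [abs_mul, abs_of_pos (inv_pos.2 hd)]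
  · simp

theorem bs_mul (c : ℝ) (h : ℝ × ℝ → ℝ) (b : Blk (ℝ × ℝ)) : bs (fun e => c * h e) b = c * bs h b := by
  unfold bs
  rw [Finset.mul_sum]

theorem bs_sub' (f g : ℝ × ℝ → ℝ) (b : Blk (ℝ × ℝ)) :
    bs (fun e => f e - g e) b = bs f b - bs g b := by
  unfold bs
  rw [Finset.sum_sub_distrib]

theorem Nice.summW {ω : Om} (hω : Nice ω) {d : ℝ} (hd : 0 < d) (t : ℝ) :
    Summable fun p => bs (hW d t) (ω p) := by
  refine Summable.of_nonneg_of_le (fun p => bs_nonneg (hW_nonneg d t) _) (fun p => ?_)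
    ((hω.summ t).mul_left d⁻¹)
  rw [← bs_mul]
  exact bs_mono (hW_le hd) _

theorem Nice.mono {ω : Om} (hω : Nice ω) {d : ℝ} (hd : 0 < d) : Monotone fun t => WW d t ω := by
  intro s t hst
  exact (hω.summW hd s).tsum_le_tsum (fun p => bs_mono (hW_mono d hst) _) (hω.summW hd t)

theorem Nice.close {ω : Om} (hω : Nice ω) {d : ℝ} (hd : 0 < d) {s t : ℝ} (hst : s ≤ t)
    (h : WW d t ω - WW d s ω < 1) : |XX t ω - XX s ω| ≤ d := by
  have h1 : HasSum (fun p => bs (hW d t) (ω p) - bs (hW d s) (ω p)) (WW d t ω - WW d s ω) :=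
    (hω.summW hd t).hasSum.sub (hω.summW hd s).hasSum
  have h2 : HasSum (fun p => bs (hX t) (ω p) - bs (hX s) (ω p)) (XX t ω - XX s ω) :=
    (hω.summX t).hasSum.sub (hω.summX s).hasSum
  have hnn : ∀ p, 0 ≤ bs (hW d t) (ω p) - bs (hW d s) (ω p) := fun p =>
    sub_nonneg.2 (bs_mono (hW_mono d hst) _)
  have key : ∀ p, |bs (hX t) (ω p) - bs (hX s) (ω p)| ≤
      d * (bs (hW d t) (ω p) - bs (hW d s) (ω p)) := by
    intro p
    rw [← bs_sub', ← bs_sub', ← bs_mul]
    have h3 : bs (hW d t) (ω p) - bs (hW d s) (ω p) < 1 :=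
      (le_hasSum h1 p fun q _ => hnn q).trans_lt h
    rw [← bs_sub'] at h3
    refine (Finset.abs_sum_le_sum_abs _ _).trans (Finset.sum_le_sum fun j hj => ?_)
    set e := (ω p).2 j with he
    have h4 : hW d t e - hW d s e ≤ bs (fun e => hW d t e - hW d s e) (ω p) :=
      Finset.single_le_sum (f := fun j => hW d t ((ω p).2 j) - hW d s ((ω p).2 j))
        (fun i _ => sub_nonneg.2 (hW_mono d hst _)) hj
    have h5 := h4.trans_lt h3
    change |hX t e - hX s e| ≤ d * (hW d t e - hW d s e)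
    unfold hX
    unfold hW at h5 ⊢
    by_cases c1 : e.1 ≤ s
    · simp only [if_pos c1, if_pos (c1.trans hst), sub_self, abs_zero, mul_zero, le_refl]
    · by_cases c2 : e.1 ≤ t
      · rw [if_neg c1, if_pos c2, sub_zero] at h5
        rw [if_neg c1, if_pos c2, if_neg c1, if_pos c2, sub_zero, sub_zero]
        rcases min_lt_iff.1 h5 with h6 | h6
        · exact absurd h6 (lt_irrefl _)
        · rw [min_eq_right h6.le, abs_mul, abs_of_pos (inv_pos.2 hd), ← mul_assoc,
            mul_inv_cancel₀ hd.ne', one_mul]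
      · rw [if_neg c1, if_neg c2, if_neg c1, if_neg c2]
        simp
  have h3 : Summable fun p => |bs (hX t) (ω p) - bs (hX s) (ω p)| :=
    Summable.of_nonneg_of_le (fun _ => abs_nonneg _) key (h1.summable.mul_left d)
  rw [← h2.tsum_eq]
  calc |∑' p, (bs (hX t) (ω p) - bs (hX s) (ω p))|
      ≤ ∑' p, |bs (hX t) (ω p) - bs (hX s) (ω p)| := by
        have := norm_tsum_le_tsum_norm (f := fun p => bs (hX t) (ω p) - bs (hX s) (ω p)) h3
        simpa [Real.norm_eq_abs] using this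
    _ ≤ ∑' p, d * (bs (hW d t) (ω p) - bs (hW d s) (ω p)) :=
        h3.tsum_le_tsum key (h1.summable.mul_left d)
    _ = d * (WW d t ω - WW d s ω) := by rw [tsum_mul_left, h1.tsum_eq]
    _ ≤ d * 1 := mul_le_mul_of_nonneg_left h.le hd.le
    _ = d := mul_one d

theorem Nice.close' {ω : Om} (hω : Nice ω) {d : ℝ} (hd : 0 < d) {s t : ℝ}
    (h : ⌊WW d s ω⌋₊ = ⌊WW d t ω⌋₊) : |XX t ω - XX s ω| ≤ d := by
  have hW0 : ∀ t, 0 ≤ WW d t ω := fun t => tsum_nonneg fun p => bs_nonneg (hW_nonneg d t) _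
  have h1 := Nat.floor_le (hW0 s)
  have h2 := Nat.floor_le (hW0 t)
  have h3 := Nat.lt_floor_add_one (WW d s ω)
  have h4 := Nat.lt_floor_add_one (WW d t ω)
  rw [← h] at h2 h4
  rcases le_total s t with hst | hst
  · exact hω.close hd hst (by linarith)
  · rw [abs_sub_comm]
    exact hω.close hd hst (by linarith)

/-- `WW (2⁻¹ ^ k) 1 * (2⁻¹ ^ k) ^ s → 0` for `s > a`. -/
theorem ae_small {a : ℝ} [ha : Fact (0 < a ∧ a < 1)] {s : ℝ} (hs : a < s) :
    ∀ᵐ ω ∂(PP (MM a)), Tendsto (fun k : ℕ => WW ((1 / 2) ^ k) 1 ω * ((1 / 2 : ℝ) ^ k) ^ s) atTop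
      (𝓝 0) := by
  have hd : ∀ k : ℕ, (0 : ℝ) < (1 / 2) ^ k := fun k => by positivity
  set A := ∫⁻ x, ENNReal.ofReal (min 1 |x|) ∂(nu a) with hA
  have hAt : A < ∞ := nu_min_lt ha.out.1 ha.out.2
  -- the mean
  have h1 : ∀ k : ℕ, ∫⁻ ω, (∑' p, ENNReal.ofReal (bs (hW ((1 / 2) ^ k) 1) (ω p))) *
      ENNReal.ofReal (((1 / 2 : ℝ) ^ k) ^ s) ∂(PP (MM a)) =
      ENNReal.ofReal (((1 / 2 : ℝ) ^ (s - a)) ^ k) * A := by
    intro k
    rw [lintegral_mul_const _ (by
      apply Measurable.tsum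
      intro p
      apply Measurable.ennreal_ofReal
      exact (measurable_bs (measurable_hW _ 1)).comp (measurable_pi_apply p)), mean_W (hd k),
      ENNReal.ofReal_one, one_mul, mul_assoc, mul_comm A, ← mul_assoc,
      ← ENNReal.ofReal_mul (by positivity)]
    congr 2
    rw [← Real.rpow_add (hd k), ← Real.rpow_natCast, ← Real.rpow_natCast, ← Real.rpow_mul
      (by norm_num), ← Real.rpow_mul (by norm_num)]
    congr 1
    ring
  have h2 : ∫⁻ ω, ∑' k : ℕ, (∑' p, ENNReal.ofReal (bs (hW ((1 / 2) ^ k) 1) (ω p))) *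
      ENNReal.ofReal (((1 / 2 : ℝ) ^ k) ^ s) ∂(PP (MM a)) ≠ ∞ := by
    rw [lintegral_tsum]
    · simp_rw [h1]
      rw [ENNReal.tsum_mul_right]
      refine (ENNReal.mul_lt_top ?_ hAt).ne
      have h3 : Summable (fun k : ℕ => ((1 / 2 : ℝ) ^ (s - a)) ^ k) := by
        apply summable_geometric_of_lt_one (by positivity)
        exact Real.rpow_lt_one (by norm_num) (by norm_num) (by linarith)
      exact h3.tsum_ofReal_lt_top
    · intro k
      apply Measurable.aemeasurable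
      apply Measurable.mul_const
      apply Measurable.tsum
      intro p
      apply Measurable.ennreal_ofReal
      exact (measurable_bs (measurable_hW _ 1)).comp (measurable_pi_apply p)
  have hm : Measurable fun ω : Om => ∑' k : ℕ,
      (∑' p, ENNReal.ofReal (bs (hW ((1 / 2) ^ k) 1) (ω p))) *
      ENNReal.ofReal (((1 / 2 : ℝ) ^ k) ^ s) := by
    apply Measurable.tsum
    intro k
    apply Measurable.mul_const
    apply Measurable.tsum
    intro p
    apply Measurable.ennreal_ofReal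
    exact (measurable_bs (measurable_hW _ 1)).comp (measurable_pi_apply p)
  filter_upwards [ae_lt_top hm h2, ae_nice] with ω hω hn
  have h3 := ENNReal.summable_toReal hω.ne
  have h4 := h3.tendsto_atTop_zero
  refine h4.congr fun k => ?_
  rw [ENNReal.toReal_mul, ENNReal.toReal_ofReal (by positivity)]
  congr 1
  rw [← ENNReal.ofReal_tsum_of_nonneg (fun p => bs_nonneg (hW_nonneg _ _) _)
    (hn.summW (hd k) 1), ENNReal.toReal_ofReal]
  · rfl
  · exact tsum_nonneg fun p => bs_nonneg (hW_nonneg _ _) _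

end Pool.Agent.U147.Stab
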