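import Pool.Agent.U147.Stab.Nu

/-!
# Fourier decay and energy
-/

set_option autoImplicit false

open MeasureTheory ProbabilityTheory Set Filter Topology
open scoped NNReal ENNReal

namespace Pool.Agent.U147.Stab

/-- Gaussian kernel -/
noncomputable def Gk (d : ℝ) (z : (ℝ × ℝ) × (ℝ × ℝ)) : ℝ :=
  Real.exp (-(((z.1.2 - z.2.2) / d) ^ 2) / 2)

theorem Gk_nonneg (d : ℝ) (z : (ℝ × ℝ) × (ℝ × ℝ)) : 0 ≤ Gk d z := (Real.exp_pos _).le

theorem Gk_le_one (d : ℝ) (z : (ℝ × ℝ) × (ℝ × ℝ)) : Gk d z ≤ 1 := by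
  unfold Gk
  rw [Real.exp_le_one_iff]
  have := sq_nonneg ((z.1.2 - z.2.2) / d)
  linarith

theorem measurable_Gk (d : ℝ) : Measurable (Gk d) := by unfold Gk; fun_prop

theorem integrable_Gk (d : ℝ) (μ : Measure (ℝ × ℝ)) [IsProbabilityMeasure μ] :
    Integrable (Gk d) (μ.prod μ) := by
  refine Integrable.of_bound (measurable_Gk d).aestronglyMeasurable 1 (ae_of_all _ fun z => ?_)
  rw [Real.norm_eq_abs, abs_of_nonneg (Gk_nonneg d z)]
  exact Gk_le_one d z

theorem lower {μ : Measure (ℝ × ℝ)} [IsProbabilityMeasure μ] {d : ℝ} (hd : 0 < d)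
    {c : ℝ × ℝ → ℕ} (hc : Measurable c) {N : ℕ} (hN : ∀ᵐ p ∂μ, c p ≤ N) {K : Set (ℝ × ℝ)}
    (hK : ∀ᵐ p ∂μ, p ∈ K) (hclose : ∀ p ∈ K, ∀ q ∈ K, c p = c q → |p.2 - q.2| ≤ d) :
    Real.exp (-1 / 2) / (N + 1) ≤ ∫ z, Gk d z ∂(μ.prod μ) := by
  have hB : ∀ i, MeasurableSet (c ⁻¹' {i}) := fun i => hc (measurableSet_singleton i)
  set f : ℕ → ℝ × ℝ → ℝ := fun i => (c ⁻¹' {i}).indicator (fun _ => 1) with hf
  have hfi : ∀ i, Integrable (f i) μ := fun i =>
    (integrable_const (1 : ℝ)).indicator (hB i)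
  have h1 : ∑ i ∈ Finset.range (N + 1), μ.real (c ⁻¹' {i}) = 1 := by
    have h2 : ∀ i, μ.real (c ⁻¹' {i}) = ∫ p, f i p ∂μ := by
      intro i
      rw [integral_indicator (hB i)]
      simp
    simp_rw [h2]
    rw [← integral_finsetSum _ fun i _ => hfi i]
    have h3 : ∫ p, ∑ i ∈ Finset.range (N + 1), f i p ∂μ = ∫ p, (1 : ℝ) ∂μ := by
      apply integral_congr_ae
      filter_upwards [hN] with p hp
      rw [Finset.sum_eq_single (c p)]
      · simp [hf]
      · intro i _ hi
        simp only [hf]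
        rw [indicator_of_notMem]
        intro h
        exact hi h.symm
      · intro h
        exact absurd (Finset.mem_range.2 (by omega)) h
    rw [h3]
    simp
  have h4 : (1 : ℝ) ≤ (N + 1) * ∑ i ∈ Finset.range (N + 1), μ.real (c ⁻¹' {i}) ^ 2 := by
    have h5 := sq_sum_le_card_mul_sum_sq (s := Finset.range (N + 1))
      (f := fun i => μ.real (c ⁻¹' {i}))
    rw [h1, Finset.card_range] at h5
    push_cast at h5
    linarith
  have h6 : Real.exp (-1 / 2) * ∑ i ∈ Finset.range (N + 1), μ.real (c ⁻¹' {i}) ^ 2 ≤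
      ∫ z, Gk d z ∂(μ.prod μ) := by
    have h7 : ∀ i, μ.real (c ⁻¹' {i}) ^ 2 = ∫ z : (ℝ × ℝ) × (ℝ × ℝ), f i z.1 * f i z.2
        ∂(μ.prod μ) := by
      intro i
      rw [integral_prod_mul]
      have h2 : μ.real (c ⁻¹' {i}) = ∫ p, f i p ∂μ := by
        rw [integral_indicator (hB i)]
        simp
      rw [h2, sq]
    simp_rw [h7]
    rw [← integral_finsetSum _ fun i _ => (hfi i).mul_prod (hfi i), ← integral_const_mul]
    apply integral_mono_ae
    · exact (integrable_finsetSum _ fun i _ => (hfi i).mul_prod (hfi i)).const_mul _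
    · exact integrable_Gk d μ
    · have hK1 : ∀ᵐ z ∂(μ.prod μ), z.1 ∈ K := Measure.quasiMeasurePreserving_fst.ae hK
      have hK2 : ∀ᵐ z ∂(μ.prod μ), z.2 ∈ K := Measure.quasiMeasurePreserving_snd.ae hK
      filter_upwards [hK1, hK2] with z hz1 hz2
      by_cases h : c z.1 = c z.2
      · have h8 : ∑ i ∈ Finset.range (N + 1), f i z.1 * f i z.2 ≤ 1 := by
          have h9 : ∀ i ∈ Finset.range (N + 1), f i z.1 * f i z.2 ≤ if i = c z.1 then 1 else 0 := by
            intro i _
            simp only [hf]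
            by_cases hi : i = c z.1
            · rw [if_pos hi, indicator_of_mem (show z.1 ∈ c ⁻¹' {i} by simp [hi]),
                indicator_of_mem (show z.2 ∈ c ⁻¹' {i} by simp [hi, h])]
              simp
            · rw [if_neg hi, indicator_of_notMem (show z.1 ∉ c ⁻¹' {i} from fun h => hi h.symm)]
              simp
          refine (Finset.sum_le_sum h9).trans ?_
          rw [Finset.sum_ite_eq']
          split_ifs <;> simp
        have h10 : Real.exp (-1 / 2) ≤ Gk d z := by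
          unfold Gk
          apply Real.exp_le_exp.2
          have h11 := hclose z.1 hz1 z.2 hz2 h
          have h12 : ((z.1.2 - z.2.2) / d) ^ 2 ≤ 1 := by
            rw [sq_le_one_iff_abs_le_one, abs_div, abs_of_pos hd]
            rw [div_le_one hd]
            exact h11
          linarith
        calc Real.exp (-1 / 2) * ∑ i ∈ Finset.range (N + 1), f i z.1 * f i z.2
            ≤ Real.exp (-1 / 2) * 1 := mul_le_mul_of_nonneg_left h8 (Real.exp_pos _).le
          _ = Real.exp (-1 / 2) := mul_one _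
          _ ≤ _ := h10
      · have h8 : ∑ i ∈ Finset.range (N + 1), f i z.1 * f i z.2 = 0 := by
          apply Finset.sum_eq_zero
          intro i _
          simp only [hf]
          by_cases hi : c z.1 = i
          · rw [indicator_of_notMem (show z.2 ∉ c ⁻¹' {i} from fun h' => h (hi.trans h'.symm))]
            simp
          · rw [indicator_of_notMem (show z.1 ∉ c ⁻¹' {i} from hi)]
            simp
        simp only [h8, mul_zero]
        exact Gk_nonneg d z
  have h13 : (0 : ℝ) < N + 1 := by positivity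
  rw [div_le_iff₀ h13]
  calc Real.exp (-1 / 2) = Real.exp (-1 / 2) * 1 := (mul_one _).symm
    _ ≤ Real.exp (-1 / 2) * ((N + 1) * ∑ i ∈ Finset.range (N + 1), μ.real (c ⁻¹' {i}) ^ 2) :=
        mul_le_mul_of_nonneg_left h4 (Real.exp_pos _).le
    _ = (Real.exp (-1 / 2) * ∑ i ∈ Finset.range (N + 1), μ.real (c ⁻¹' {i}) ^ 2) * (N + 1) := by
        ring
    _ ≤ _ := mul_le_mul_of_nonneg_right h6 h13.le

/-- the Fourier transform in the second variable -/
noncomputable def ft (μ : Measure (ℝ × ℝ)) (y : ℝ) : ℂ :=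
  ∫ p, Complex.exp (((y * p.2 : ℝ) : ℂ) * Complex.I) ∂μ

theorem norm_ft_le (μ : Measure (ℝ × ℝ)) [IsProbabilityMeasure μ] (y : ℝ) : ‖ft μ y‖ ≤ 1 := by
  unfold ft
  refine (norm_integral_le_integral_norm _).trans ?_
  simp_rw [Complex.norm_exp_ofReal_mul_I]
  simp

theorem ft_sq (μ : Measure (ℝ × ℝ)) [IsProbabilityMeasure μ] (y : ℝ) :
    ∫ z : (ℝ × ℝ) × (ℝ × ℝ), Complex.exp (((y * (z.1.2 - z.2.2) : ℝ) : ℂ) * Complex.I)
      ∂(μ.prod μ) = ((‖ft μ y‖ ^ 2 : ℝ) : ℂ) := by
  have h1 : ∀ z : (ℝ × ℝ) × (ℝ × ℝ), Complex.exp (((y * (z.1.2 - z.2.2) : ℝ) : ℂ) * Complex.I) =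
      Complex.exp (((y * z.1.2 : ℝ) : ℂ) * Complex.I) *
        (starRingEnd ℂ) (Complex.exp (((y * z.2.2 : ℝ) : ℂ) * Complex.I)) := by
    intro z
    rw [← Complex.exp_conj, ← Complex.exp_add]
    congr 1
    simp only [map_mul, Complex.conj_I, Complex.conj_ofReal]
    push_cast
    ring
  simp_rw [h1]
  rw [integral_prod_mul (fun p : ℝ × ℝ => Complex.exp (((y * p.2 : ℝ) : ℂ) * Complex.I))
    (fun p : ℝ × ℝ => (starRingEnd ℂ) (Complex.exp (((y * p.2 : ℝ) : ℂ) * Complex.I))),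
    integral_conj]
  change ft μ y * (starRingEnd ℂ) (ft μ y) = _
  rw [Complex.mul_conj, Complex.normSq_eq_norm_sq]

theorem energy_eq (μ : Measure (ℝ × ℝ)) [IsProbabilityMeasure μ] (d : ℝ) :
    ∫ z, Gk d z ∂(μ.prod μ) = ∫ x, ‖ft μ (x / d)‖ ^ 2 ∂(gaussianReal 0 1) := by
  have h1 : ∀ z : (ℝ × ℝ) × (ℝ × ℝ), ((Gk d z : ℝ) : ℂ) = ∫ x : ℝ,
      Complex.exp (((x / d * (z.1.2 - z.2.2) : ℝ) : ℂ) * Complex.I) ∂(gaussianReal 0 1) := by
    intro z
    have h2 := charFun_gaussianReal (μ := 0) (v := 1) ((z.1.2 - z.2.2) / d)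
    rw [charFun_apply_real] at h2
    unfold Gk
    rw [Complex.ofReal_exp]
    have h3 : (((-((z.1.2 - z.2.2) / d) ^ 2 / 2 : ℝ)) : ℂ) =
        (((z.1.2 - z.2.2) / d : ℝ) : ℂ) * ((0 : ℝ) : ℂ) * Complex.I -
          (((1 : ℝ≥0) : ℝ) : ℂ) * (((z.1.2 - z.2.2) / d : ℝ) : ℂ) ^ 2 / 2 := by
      push_cast
      ring
    rw [h3]
    refine h2.symm.trans ?_
    congr with x
    congr 2
    push_cast
    ring
  have h4 : ((∫ z, Gk d z ∂(μ.prod μ) : ℝ) : ℂ) =
      ((∫ x, ‖ft μ (x / d)‖ ^ 2 ∂(gaussianReal 0 1) : ℝ) : ℂ) := by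
    rw [← integral_complex_ofReal, ← integral_complex_ofReal]
    simp_rw [h1, ← ft_sq]
    apply integral_integral_swap
    refine Integrable.of_bound ?_ 1 (ae_of_all _ fun z => ?_)
    · apply Measurable.aestronglyMeasurable
      unfold Function.uncurry
      fun_prop
    · exact (Complex.norm_exp_ofReal_mul_I _).le
  exact_mod_cast h4

theorem gaussian_le : gaussianReal 0 1 ≤ (volume : Measure ℝ) := by
  rw [gaussianReal_of_var_ne_zero 0 one_ne_zero]
  have h : ∀ x, gaussianPDF 0 1 x ≤ 1 := by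
    intro x
    unfold gaussianPDF gaussianPDFReal
    rw [← ENNReal.ofReal_one]
    apply ENNReal.ofReal_le_ofReal
    have h1 : (1 : ℝ) ≤ √(2 * Real.pi * ((1 : ℝ≥0) : ℝ)) := by
      rw [Real.one_le_sqrt]
      have := Real.pi_gt_three
      push_cast
      linarith
    have h2 : (√(2 * Real.pi * ((1 : ℝ≥0) : ℝ)))⁻¹ ≤ 1 := inv_le_one_of_one_le₀ h1
    have h3 : Real.exp (-(x - 0) ^ 2 / (2 * ((1 : ℝ≥0) : ℝ))) ≤ 1 := by
      rw [Real.exp_le_one_iff]
      have := sq_nonneg (x - 0)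
      push_cast
      linarith
    exact mul_le_one₀ h2 (Real.exp_pos _).le h3
  calc (volume : Measure ℝ).withDensity (gaussianPDF 0 1)
      ≤ (volume : Measure ℝ).withDensity 1 := withDensity_mono (ae_of_all _ h)
    _ = volume := withDensity_one

theorem integrable_rpow {s : ℝ} (hs0 : 0 < s) (hs1 : s < 1) :
    Integrable (fun x : ℝ => |x| ^ (-s)) (gaussianReal 0 1) := by
  have hm : Measurable fun x : ℝ => |x| ^ (-s) := by fun_prop
  have h1 : Integrable (fun x : ℝ => if |x| ≤ 1 then |x| ^ (-s) else 0) volume := by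
    refine ⟨?_, ?_⟩
    · apply Measurable.aestronglyMeasurable
      exact Measurable.ite (measurableSet_le (by fun_prop) (by fun_prop)) hm measurable_const
    · rw [hasFiniteIntegral_iff_ofReal]
      · have hm2 : Measurable fun x : ℝ => ENNReal.ofReal (if x ≤ 1 then x ^ (-s) else 0) := by
          apply Measurable.ennreal_ofReal
          exact Measurable.ite measurableSet_Iic (by fun_prop) measurable_const
        have h2 := lintegral_abs (f := fun x : ℝ => ENNReal.ofReal (if x ≤ 1 then x ^ (-s) else 0))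
          hm2
        rw [h2]
        apply ENNReal.mul_lt_top (by norm_num)
        have h3 : IntegrableOn (fun x : ℝ => x ^ (-s)) (Ioc 0 1) := by
          have := intervalIntegral.intervalIntegrable_rpow' (a := 0) (b := 1) (r := -s)
            (by linarith)
          rwa [intervalIntegrable_iff_integrableOn_Ioc_of_le zero_le_one] at this
        have h4 := h3.lintegral_lt_top
        refine lt_of_le_of_lt ?_ h4
        rw [← lintegral_indicator measurableSet_Ioi, ← lintegral_indicator measurableSet_Ioc]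
        refine lintegral_mono fun x => ?_
        by_cases hx0 : 0 < x
        · rw [indicator_of_mem (show x ∈ Ioi (0 : ℝ) from hx0)]
          by_cases hx1 : x ≤ 1
          · rw [indicator_of_mem (show x ∈ Ioc (0 : ℝ) 1 from ⟨hx0, hx1⟩), if_pos hx1]
          · rw [if_neg hx1, ENNReal.ofReal_zero]; exact zero_le
        · rw [indicator_of_notMem (show x ∉ Ioi (0 : ℝ) from hx0)]; exact zero_le
      · refine ae_of_all _ fun x => ?_
        simp only [Pi.zero_apply]
        split_ifs <;> positivity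
  have h2 : Integrable (fun x : ℝ => (if |x| ≤ 1 then |x| ^ (-s) else 0) + 1)
      (gaussianReal 0 1) := (h1.mono_measure gaussian_le).add (integrable_const _)
  refine h2.mono' hm.aestronglyMeasurable (ae_of_all _ fun x => ?_)
  have h0 : 0 ≤ |x| ^ (-s) := by positivity
  rw [Real.norm_eq_abs, abs_of_nonneg h0]
  by_cases h : |x| ≤ 1
  · rw [if_pos h]; linarith
  · rw [if_neg h, zero_add]
    exact Real.rpow_le_one_of_one_le_of_nonpos (not_le.1 h).le (by linarith)

theorem upper {μ : Measure (ℝ × ℝ)} [IsProbabilityMeasure μ] {d : ℝ} (hd : 0 < d) {s : ℝ}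
    (hs0 : 0 < s) (hs1 : s < 1) {C : ℝ} (hC : ∀ y : ℝ, 1 ≤ |y| → ‖ft μ y‖ ≤ C * |y| ^ (-s / 2)) :
    ∫ z, Gk d z ∂(μ.prod μ) ≤
      ((1 + C ^ 2) * ∫ x : ℝ, |x| ^ (-s) ∂(gaussianReal 0 1)) * d ^ s := by
  rw [energy_eq]
  have key : ∀ x : ℝ, x ≠ 0 → ‖ft μ (x / d)‖ ^ 2 ≤ (1 + C ^ 2) * |x| ^ (-s) * d ^ s := by
    intro x hx
    have hx' : 0 < |x| := abs_pos.2 hx
    have hxd : |x / d| = |x| / d := by rw [abs_div, abs_of_pos hd]
    have e1 : |x| ^ (-s) * d ^ s = |x / d| ^ (-s) := by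
      rw [hxd, Real.div_rpow hx'.le hd.le, Real.rpow_neg hd.le, div_inv_eq_mul]
    rw [mul_assoc, e1]
    have hq : 0 < |x / d| := by rw [hxd]; positivity
    have h0 : 0 ≤ |x / d| ^ (-s) := (Real.rpow_pos_of_pos hq _).le
    rcases le_total 1 |x / d| with h | h
    · have h1 := hC (x / d) h
      have h2 : ‖ft μ (x / d)‖ ^ 2 ≤ (C * |x / d| ^ (-s / 2)) ^ 2 :=
        pow_le_pow_left₀ (norm_nonneg _) h1 2
      have h3 : (|x / d| ^ (-s / 2)) ^ 2 = |x / d| ^ (-s) := by
        rw [← Real.rpow_natCast, ← Real.rpow_mul hq.le]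
        congr 1
        push_cast
        ring
      rw [mul_pow, h3] at h2
      nlinarith
    · have h1 := norm_ft_le μ (x / d)
      have h2 : ‖ft μ (x / d)‖ ^ 2 ≤ 1 := by
        have := norm_nonneg (ft μ (x / d))
        nlinarith
      have h3 : 1 ≤ |x / d| ^ (-s) := Real.one_le_rpow_of_pos_of_le_one_of_nonpos hq h (by linarith)
      nlinarith [mul_nonneg (sq_nonneg C) h0]
  have h1 : ∫ x, ‖ft μ (x / d)‖ ^ 2 ∂(gaussianReal 0 1) ≤
      ∫ x : ℝ, (1 + C ^ 2) * |x| ^ (-s) * d ^ s ∂(gaussianReal 0 1) := by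
    apply integral_mono_of_nonneg
    · exact ae_of_all _ fun x => by positivity
    · exact ((integrable_rpow hs0 hs1).const_mul _).mul_const _
    · have : ∀ᵐ x ∂(gaussianReal 0 1), x ≠ 0 := by
        rw [ae_iff]
        simp only [ne_eq, not_not]
        have : {x : ℝ | x = 0} = {0} := by ext; simp
        rw [this]
        have := nullSingletonClass_gaussianReal (μ := 0) (v := 1) one_ne_zero
        exact measure_singleton 0
      filter_upwards [this] with x hx
      exact key x hx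
  refine h1.trans (le_of_eq ?_)
  rw [integral_mul_const, integral_const_mul]

end Pool.Agent.U147.Stab
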