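import Pool.Agent.U147.Stab.Char
import Pool.Agent.U147.Stab.Cover
import Pool.Agent.U147.Stab.Four

/-!
# The Fourier dimension of the graph of a symmetric stable process of index `a < 1` is at most `a`
-/

set_option autoImplicit false

open MeasureTheory ProbabilityTheory Set Filter Topology
open scoped NNReal ENNReal

namespace Pool.Agent.U147.Stab

/-- a probability measure on the graph over `[0, 1]` with Fourier decay `|ξ| ^ (-s / 2)` -/
def Dec (f : ℝ → ℝ) (s : ℝ) : Prop :=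
  ∃ (μ : Measure (ℝ × ℝ)) (K : Set (ℝ × ℝ)), IsProbabilityMeasure μ ∧ IsCompact K ∧
    K ⊆ {p : ℝ × ℝ | p.1 ∈ Set.Icc (0 : ℝ) 1 ∧ p.2 = f p.1} ∧ μ Kᶜ = 0 ∧
    ∃ C : ℝ, ∀ ξ : ℝ × ℝ, 1 ≤ ‖ξ‖ →
      ‖∫ p, Complex.exp (((ξ.1 * p.1 + ξ.2 * p.2 : ℝ) : ℂ) * Complex.I) ∂μ‖ ≤ C * ‖ξ‖ ^ (-s / 2)

theorem not_dec {ω : Om} (hω : Nice ω) {s : ℝ} (hs0 : 0 < s) (hs1 : s < 1)
    (hsm : Tendsto (fun k : ℕ => WW ((1 / 2) ^ k) 1 ω * ((1 / 2 : ℝ) ^ k) ^ s) atTop (𝓝 0)) :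
    ¬ Dec (fun t => XX t ω) s := by
  rintro ⟨μ, K, hμ, -, hK, hK0, C, hC⟩
  have hC' : ∀ y : ℝ, 1 ≤ |y| → ‖ft μ y‖ ≤ C * |y| ^ (-s / 2) := by
    intro y hy
    have hn : ‖((0 : ℝ), y)‖ = |y| := by
      rw [Prod.norm_def]
      simp
    have h := hC (0, y) (by rw [hn]; exact hy)
    rw [hn] at h
    unfold ft
    simpa using h
  set D := (1 + C ^ 2) * ∫ x : ℝ, |x| ^ (-s) ∂(gaussianReal 0 1) with hD
  have hKae : ∀ᵐ p ∂μ, p ∈ K := by
    rw [ae_iff]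
    exact hK0
  have key : ∀ k : ℕ, Real.exp (-1 / 2) ≤
      D * (WW ((1 / 2) ^ k) 1 ω * ((1 / 2 : ℝ) ^ k) ^ s + ((1 / 2 : ℝ) ^ k) ^ s) := by
    intro k
    set d : ℝ := (1 / 2) ^ k with hd'
    have hd : 0 < d := by positivity
    have hmono := hω.mono hd
    have hW0 : ∀ t, 0 ≤ WW d t ω := fun t => tsum_nonneg fun p => bs_nonneg (hW_nonneg d t) _
    have hmeas : Measurable fun p : ℝ × ℝ => ⌊WW d p.1 ω⌋₊ :=
      Nat.measurable_floor.comp (hmono.measurable.comp measurable_fst)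
    have h1 := lower (μ := μ) hd hmeas (N := ⌊WW d 1 ω⌋₊) (by
      filter_upwards [hKae] with p hp
      exact Nat.floor_mono (hmono (hK hp).1.2)) hKae (by
      intro p hp q hq hpq
      have h2 := (hK hp).2
      have h3 := (hK hq).2
      simp only at h2 h3
      rw [h2, h3, abs_sub_comm]
      exact hω.close' hd hpq)
    have h2 := upper (μ := μ) hd hs0 hs1 hC'
    have h3 := h1.trans h2
    have h4 : (0 : ℝ) < (⌊WW d 1 ω⌋₊ : ℝ) + 1 := by positivity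
    rw [div_le_iff₀ h4] at h3
    have h5 : (⌊WW d 1 ω⌋₊ : ℝ) ≤ WW d 1 ω := Nat.floor_le (hW0 1)
    have hD0 : 0 ≤ D := by
      rw [hD]
      apply mul_nonneg (by positivity)
      exact integral_nonneg fun x => by positivity
    calc Real.exp (-1 / 2) ≤ D * d ^ s * ((⌊WW d 1 ω⌋₊ : ℝ) + 1) := h3
      _ ≤ D * d ^ s * (WW d 1 ω + 1) := by
          apply mul_le_mul_of_nonneg_left (by linarith)
          exact mul_nonneg hD0 (Real.rpow_nonneg hd.le _)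
      _ = _ := by ring
  have hlim2 : Tendsto (fun k : ℕ => ((1 / 2 : ℝ) ^ k) ^ s) atTop (𝓝 0) := by
    have h1 : Tendsto (fun k : ℕ => (1 / 2 : ℝ) ^ k) atTop (𝓝 0) :=
      tendsto_pow_atTop_nhds_zero_of_lt_one (by norm_num) (by norm_num)
    have h2 : Tendsto (fun x : ℝ => x ^ s) (𝓝 0) (𝓝 (0 ^ s)) :=
      (Real.continuousAt_rpow_const 0 s (Or.inr hs0.le)).tendsto
    rw [Real.zero_rpow hs0.ne'] at h2
    exact h2.comp h1
  have hlim := (hsm.add hlim2).const_mul D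
  rw [add_zero, mul_zero] at hlim
  have h1 := ge_of_tendsto' hlim key
  have h2 := Real.exp_pos (-1 / 2)
  linarith

end Pool.Agent.U147.Stab
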