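import Pool.Agent.U147.Stab.Proc

set_option autoImplicit false

open MeasureTheory ProbabilityTheory Set Filter Topology
open scoped NNReal ENNReal

namespace Pool.Agent.U147.Stab

/-- the intervals are disjoint -/
theorem ioc_unique {n : ℕ} {t : Fin (n + 1) → ℝ} (ht : Monotone t) {v : ℝ} {j l : Fin n}
    (hj : v ∈ Ioc (t j.castSucc) (t j.succ)) (hl : v ∈ Ioc (t l.castSucc) (t l.succ)) : j = l := by
  rcases lt_trichotomy j l with h | h | h
  · have : j.succ ≤ l.castSucc := by
      rw [Fin.le_iff_val_le_val]; simp only [Fin.val_succ, Fin.val_castSucc]; omega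
    have := ht this
    exact absurd (lt_of_lt_of_le hl.1 (hj.2.trans this)) (lt_irrefl _)
  · exact h
  · have : l.succ ≤ j.castSucc := by
      rw [Fin.le_iff_val_le_val]; simp only [Fin.val_succ, Fin.val_castSucc]; omega
    have := ht this
    exact absurd (lt_of_lt_of_le hj.1 (hl.2.trans this)) (lt_irrefl _)

/-- the test function of the increments -/
noncomputable def hI {n : ℕ} (t : Fin (n + 1) → ℝ) (z : Fin n → ℝ) (e : ℝ × ℝ) : ℝ :=
  ∑ l, z l * (hX (t l.succ) e - hX (t l.castSucc) e)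

theorem measurable_hI {n : ℕ} (t : Fin (n + 1) → ℝ) (z : Fin n → ℝ) : Measurable (hI t z) := by
  unfold hI
  exact Finset.measurable_sum _ fun l _ =>
    ((measurable_hX _).sub (measurable_hX _)).const_mul _

theorem hX_sub {s t : ℝ} (hst : s ≤ t) (e : ℝ × ℝ) :
    hX t e - hX s e = if e.1 ∈ Ioc s t then e.2 else 0 := by
  unfold hX
  by_cases h1 : e.1 ≤ s
  · rw [if_pos h1, if_pos (h1.trans hst), if_neg (fun h => absurd h.1 (not_lt.2 h1)), sub_self]
  · by_cases h2 : e.1 ≤ t
    · rw [if_neg h1, if_pos h2, if_pos ⟨not_le.1 h1, h2⟩, sub_zero]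
    · rw [if_neg h1, if_neg h2, if_neg (fun h => h2 h.2), sub_zero]

theorem bs_sum {n : ℕ} (c : Fin n → ℝ) (f : Fin n → ℝ × ℝ → ℝ) (b : Blk (ℝ × ℝ)) :
    bs (fun e => ∑ l, c l * f l e) b = ∑ l, c l * bs (f l) b := by
  unfold bs
  rw [Finset.sum_comm]
  refine Finset.sum_congr rfl fun l _ => ?_
  rw [Finset.mul_sum]

theorem bs_sub (f g : ℝ × ℝ → ℝ) (b : Blk (ℝ × ℝ)) :
    bs (fun e => f e - g e) b = bs f b - bs g b := by
  unfold bs
  rw [Finset.sum_sub_distrib]

theorem incr_eq {ω : Om} (hω : Nice ω) {n : ℕ} (t : Fin (n + 1) → ℝ) (z : Fin n → ℝ) :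
    HasSum (fun p => bs (hI t z) (ω p)) (∑ l, z l * (XX (t l.succ) ω - XX (t l.castSucc) ω)) := by
  have h1 : ∀ p, bs (hI t z) (ω p) =
      ∑ l, z l * (bs (hX (t l.succ)) (ω p) - bs (hX (t l.castSucc)) (ω p)) := by
    intro p
    unfold hI
    rw [bs_sum z (fun l e => hX (t l.succ) e - hX (t l.castSucc) e)]
    refine Finset.sum_congr rfl fun l _ => ?_
    rw [bs_sub]
  simp_rw [h1]
  apply hasSum_sum
  intro l _
  exact (((hω.summX _).hasSum).sub ((hω.summX _).hasSum)).mul_left _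

theorem cexp_hI {n : ℕ} {t : Fin (n + 1) → ℝ} (ht : Monotone t) (z : Fin n → ℝ) (e : ℝ × ℝ) :
    Complex.exp ((hI t z e : ℂ) * Complex.I) - 1 =
      ∑ l, (Ioc (t l.castSucc) (t l.succ)).indicator (fun _ => (1 : ℂ)) e.1 *
        (Complex.exp (((z l * e.2 : ℝ) : ℂ) * Complex.I) - 1) := by
  have h0 : hI t z e = ∑ l, if e.1 ∈ Ioc (t l.castSucc) (t l.succ) then z l * e.2 else 0 := by
    unfold hI
    refine Finset.sum_congr rfl fun l _ => ?_
    rw [hX_sub (ht (Fin.castSucc_le_succ l))]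
    split_ifs <;> simp
  by_cases h : ∃ j : Fin n, e.1 ∈ Ioc (t j.castSucc) (t j.succ)
  · obtain ⟨j, hj⟩ := h
    have h1 : hI t z e = z j * e.2 := by
      rw [h0, Finset.sum_eq_single j]
      · rw [if_pos hj]
      · intro l _ hl
        rw [if_neg (fun h => hl (ioc_unique ht h hj))]
      · intro h; exact absurd (Finset.mem_univ j) h
    rw [h1, Finset.sum_eq_single j]
    · rw [indicator_of_mem hj, one_mul]
    · intro l _ hl
      rw [indicator_of_notMem (fun h => hl (ioc_unique ht h hj)), zero_mul]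
    · intro h; exact absurd (Finset.mem_univ j) h
  · push Not at h
    have h1 : hI t z e = 0 := by
      rw [h0]
      apply Finset.sum_eq_zero
      intro j _
      rw [if_neg (h j)]
    rw [h1, Finset.sum_eq_zero]
    · simp
    · intro j _
      rw [indicator_of_notMem (h j), zero_mul]

variable {a : ℝ} [ha : Fact (0 < a ∧ a < 1)]

omit ha in
theorem integrable_time {s t : ℝ} : Integrable (fun v : ℝ => (Ioc s t).indicator
    (fun _ => (1 : ℂ)) v) ((volume : Measure ℝ).restrict (Ioi 0)) := by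
  apply Integrable.restrict
  rw [integrable_indicator_iff measurableSet_Ioc]
  simp

omit ha in
theorem integral_time {s t : ℝ} (h0 : 0 ≤ s) (hst : s ≤ t) :
    ∫ v in Ioi (0 : ℝ), (Ioc s t).indicator (fun _ => (1 : ℂ)) v = ((t - s : ℝ) : ℂ) := by
  rw [integral_indicator measurableSet_Ioc, Measure.restrict_restrict measurableSet_Ioc,
    inter_eq_left.2 (show Ioc s t ⊆ Ioi 0 from fun x hx => lt_of_le_of_lt h0 hx.1),
    setIntegral_const,
    Real.volume_real_Ioc_of_le hst]
  simp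

theorem term_integrable (s t z : ℝ) :
    Integrable (fun e : ℝ × ℝ => (Ioc s t).indicator (fun _ => (1 : ℂ)) e.1 *
        (Complex.exp (((z * e.2 : ℝ) : ℂ) * Complex.I) - 1))
      (((volume : Measure ℝ).restrict (Ioi 0)).prod (nu a)) :=
  integrable_time.mul_prod (integrable_cexp ha.out.1 ha.out.2 z)

theorem joint {n : ℕ} {t : Fin (n + 1) → ℝ} (h0 : 0 ≤ t 0) (ht : Monotone t) (z : Fin n → ℝ) :
    ∫ ω, Complex.exp ((∑ l, z l * (XX (t l.succ) ω - XX (t l.castSucc) ω) : ℝ) * Complex.I)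
      ∂(PP (MM a)) =
      ∏ l, ((Real.exp (-(t l.succ - t l.castSucc) * |z l| ^ a) : ℝ) : ℂ) := by
  have hint : Integrable (fun e : ℝ × ℝ => Complex.exp ((hI t z e : ℂ) * Complex.I) - 1)
      (Measure.sum (MM a)) := by
    rw [sum_MM]
    simp_rw [cexp_hI ht z]
    exact integrable_finsetSum _ fun l _ => term_integrable _ _ _
  have hs : ∀ᵐ ω ∂(PP (MM a)), Summable fun p => bs (hI t z) (ω p) := by
    filter_upwards [ae_nice] with ω hω
    exact (incr_eq hω t z).summable
  have h1 := charfun_tot (MM a) (measurable_hI t z) hs hint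
  have h2 : ∫ ω, Complex.exp ((∑ l, z l * (XX (t l.succ) ω - XX (t l.castSucc) ω) : ℝ) * Complex.I)
      ∂(PP (MM a)) = ∫ ω, Complex.exp (((∑' p, bs (hI t z) (ω p) : ℝ) : ℂ) * Complex.I)
        ∂(PP (MM a)) := by
    apply integral_congr_ae
    filter_upwards [ae_nice] with ω hω
    rw [(incr_eq hω t z).tsum_eq]
  rw [h2, h1, sum_MM]
  simp_rw [cexp_hI ht z]
  rw [integral_finsetSum _ fun l _ => term_integrable _ _ _, Complex.exp_sum]
  refine Finset.prod_congr rfl fun l _ => ?_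
  have h3 : ∫ e : ℝ × ℝ, (Ioc (t l.castSucc) (t l.succ)).indicator (fun _ => (1 : ℂ)) e.1 *
        (Complex.exp (((z l * e.2 : ℝ) : ℂ) * Complex.I) - 1)
      ∂(((volume : Measure ℝ).restrict (Ioi 0)).prod (nu a)) =
      (∫ v in Ioi (0 : ℝ), (Ioc (t l.castSucc) (t l.succ)).indicator (fun _ => (1 : ℂ)) v) *
      ∫ x, (Complex.exp (((z l * x : ℝ) : ℂ) * Complex.I) - 1) ∂(nu a) :=
    integral_prod_mul (fun v => (Ioc (t l.castSucc) (t l.succ)).indicator (fun _ => (1 : ℂ)) v)
      (fun x : ℝ => Complex.exp (((z l * x : ℝ) : ℂ) * Complex.I) - 1)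
  rw [h3, integral_time (h0.trans (ht (Fin.zero_le _))) (ht (Fin.castSucc_le_succ l)),
    integral_cexp ha.out.1 ha.out.2, Complex.ofReal_exp]
  congr 1
  push_cast
  ring

theorem single {s t : ℝ} (h0 : 0 ≤ s) (hst : s ≤ t) (z : ℝ) :
    ∫ ω, Complex.exp (((z * (XX t ω - XX s ω) : ℝ) : ℂ) * Complex.I) ∂(PP (MM a)) =
      ((Real.exp (-(t - s) * |z| ^ a) : ℝ) : ℂ) := by
  have h := joint (a := a) (n := 1) (t := ![s, t]) (by simpa using h0) (by
    intro i j hij
    fin_cases i <;> fin_cases j <;> simp at hij ⊢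
    exact hst) (fun _ => z)
  simpa using h

theorem indep (n : ℕ) (t : Fin (n + 1) → ℝ) (h0 : 0 ≤ t 0) (ht : Monotone t) :
    iIndepFun (fun (i : Fin n) (ω : Om) => XX (t i.succ) ω - XX (t i.castSucc) ω)
      (PP (MM a)) := by
  have hm : ∀ i : Fin n, AEMeasurable (fun ω => XX (t i.succ) ω - XX (t i.castSucc) ω)
      (PP (MM a)) := fun i => ((measurable_XX _).sub (measurable_XX _)).aemeasurable
  rw [iIndepFun_iff_charFun_pi hm]
  intro z
  have h1 := joint (a := a) h0 ht (fun j => z j)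
  have h2 : ∀ j : Fin n, charFun ((PP (MM a)).map
        (fun ω => XX (t j.succ) ω - XX (t j.castSucc) ω)) (z j) =
        ((Real.exp (-(t j.succ - t j.castSucc) * |z j| ^ a) : ℝ) : ℂ) := by
    intro j
    rw [← single (a := a) (h0.trans (ht (Fin.zero_le _))) (ht (Fin.castSucc_le_succ j)) (z j),
      charFun_apply, integral_map (hm j) (by fun_prop)]
    congr with ω
  simp_rw [h2]
  rw [← h1, charFun_apply, integral_map]
  · congr with ω
  · apply Measurable.aemeasurable
    apply (WithLp.measurable_toLp 2 _).comp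
    exact measurable_pi_lambda _ (fun j => (measurable_XX _).sub (measurable_XX _))
  · fun_prop

end Pool.Agent.U147.Stab
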