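import Pool.Agent.U147.Stab.Nu

set_option autoImplicit false

open MeasureTheory ProbabilityTheory Set Filter Topology
open scoped NNReal ENNReal

namespace Pool.Agent.U147.Stab

theorem integrable_min {a : ℝ} (ha0 : 0 < a) (ha1 : a < 1) :
    Integrable (fun x : ℝ => min 1 |x|) (nu a) := by
  refine ⟨by fun_prop, ?_⟩
  rw [hasFiniteIntegral_iff_ofReal]
  · exact nu_min_lt ha0 ha1
  · exact ae_of_all _ (fun x => le_min zero_le_one (abs_nonneg _))

theorem lintegral_one_sub_cos {a : ℝ} (ha0 : 0 < a) (ha1 : a < 1) :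
    ∫⁻ x, ENNReal.ofReal (1 - Real.cos x) ∂(nu a) = 1 := by
  have hk := kap_pos ha0 ha1
  rw [lintegral_nu a (by fun_prop)]
  have h1 : ∀ x : ℝ, ENNReal.ofReal (dn a x / kap a) * ENNReal.ofReal (1 - Real.cos x) =
      ENNReal.ofReal (1 / kap a * ((1 - Real.cos x) * dn a x)) := by
    intro x
    rw [← ENNReal.ofReal_mul (div_nonneg (dn_nonneg _ _) hk.le)]
    congr 1
    ring
  simp_rw [h1]
  rw [← ofReal_integral_eq_lintegral_ofReal ((int_cos ha0 ha1).const_mul _)
    (ae_of_all _ (fun x => mul_nonneg (by positivity)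
      (mul_nonneg (by linarith [Real.cos_le_one x]) (dn_nonneg _ _)))), integral_const_mul]
  change ENNReal.ofReal (1 / kap a * kap a) = 1
  rw [one_div, inv_mul_cancel₀ hk.ne', ENNReal.ofReal_one]

theorem integrable_cos {a : ℝ} (ha0 : 0 < a) (ha1 : a < 1) (z : ℝ) :
    Integrable (fun x : ℝ => 1 - Real.cos (z * x)) (nu a) := by
  refine ((integrable_min ha0 ha1).const_mul (2 * (1 + |z|))).mono' (by fun_prop) ?_
  refine ae_of_all _ fun x => ?_
  rw [Real.norm_eq_abs, abs_of_nonneg (by linarith [Real.cos_le_one (z * x)])]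
  refine (one_sub_cos_le _).trans ?_
  rw [mul_assoc]
  apply mul_le_mul_of_nonneg_left _ (by norm_num)
  rw [abs_mul]
  have h1 := abs_nonneg z
  have h2 := abs_nonneg x
  rcases le_total 1 |x| with h | h
  · rw [min_eq_left h]
    refine (min_le_left _ _).trans ?_
    linarith
  · rw [min_eq_right h]
    refine (min_le_right _ _).trans ?_
    nlinarith

theorem integral_cos {a : ℝ} (ha0 : 0 < a) (ha1 : a < 1) (z : ℝ) :
    ∫ x, (1 - Real.cos (z * x)) ∂(nu a) = |z| ^ a := by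
  rcases eq_or_ne z 0 with rfl | hz
  · simp [Real.zero_rpow ha0.ne']
  have hz' : 0 < |z| := abs_pos.2 hz
  rw [integral_eq_lintegral_of_nonneg_ae
    (ae_of_all _ fun x => sub_nonneg.2 (Real.cos_le_one (z * x))) (by fun_prop)]
  have h1 := nu_scale ha0 ha1 (g := fun x => ENNReal.ofReal (1 - Real.cos x)) (by fun_prop)
    (d := |z|⁻¹) (inv_pos.2 hz')
  simp only [inv_inv] at h1
  have h2 : ∀ x : ℝ, Real.cos (z * x) = Real.cos (|z| * x) := by
    intro x
    rw [← Real.cos_abs (z * x), ← Real.cos_abs (|z| * x), abs_mul, abs_mul, abs_abs]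
  simp_rw [h2]
  rw [h1, lintegral_one_sub_cos ha0 ha1, mul_one, ENNReal.toReal_ofReal (by positivity),
    Real.inv_rpow hz'.le, Real.rpow_neg hz'.le, inv_inv]

theorem integrable_sin {a : ℝ} (ha0 : 0 < a) (ha1 : a < 1) (z : ℝ) :
    Integrable (fun x : ℝ => Real.sin (z * x)) (nu a) := by
  refine ((integrable_min ha0 ha1).const_mul (1 + |z|)).mono' (by fun_prop) ?_
  refine ae_of_all _ fun x => ?_
  rw [Real.norm_eq_abs]
  have h1 := abs_nonneg z
  have h2 := abs_nonneg x
  rcases le_total 1 |x| with h | h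
  · rw [min_eq_left h]
    refine (Real.abs_sin_le_one _).trans ?_
    linarith
  · rw [min_eq_right h]
    refine (Real.abs_sin_le_abs (x := z * x)).trans ?_
    rw [abs_mul]
    nlinarith

theorem integral_sin (a : ℝ) (z : ℝ) :
    ∫ x, Real.sin (z * x) ∂(nu a) = 0 := by
  unfold nu
  rw [integral_withDensity_eq_integral_toReal_smul (measurable_den a)
    (ae_of_all _ fun x => ENNReal.ofReal_lt_top)]
  have h1 := integral_neg_eq_self (μ := (volume : Measure ℝ))
    (fun x => (ENNReal.ofReal (dn a x / kap a)).toReal • Real.sin (z * x))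
  have h2 : ∀ x : ℝ, (ENNReal.ofReal (dn a (-x) / kap a)).toReal • Real.sin (z * -x) =
      -((ENNReal.ofReal (dn a x / kap a)).toReal • Real.sin (z * x)) := by
    intro x
    have : dn a (-x) = dn a x := by unfold dn; rw [abs_neg]
    rw [this, mul_neg, Real.sin_neg, smul_neg]
  simp_rw [h2] at h1
  rw [integral_neg] at h1
  linarith

theorem cexp_eq (y : ℝ) : Complex.exp (y * Complex.I) - 1 =
    ((-(1 - Real.cos y) : ℝ) : ℂ) + ((Real.sin y : ℝ) : ℂ) * Complex.I := by
  rw [Complex.exp_mul_I, ← Complex.ofReal_cos, ← Complex.ofReal_sin]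
  push_cast
  ring

theorem integrable_cexp {a : ℝ} (ha0 : 0 < a) (ha1 : a < 1) (z : ℝ) :
    Integrable (fun x : ℝ => Complex.exp (((z * x : ℝ) : ℂ) * Complex.I) - 1) (nu a) := by
  have h : (fun x : ℝ => Complex.exp (((z * x : ℝ) : ℂ) * Complex.I) - 1) = fun x : ℝ =>
      ((-(1 - Real.cos (z * x)) : ℝ) : ℂ) + ((Real.sin (z * x) : ℝ) : ℂ) * Complex.I := by
    ext x
    rw [cexp_eq]
  rw [h]
  exact (integrable_cos ha0 ha1 z).neg.ofReal.add ((integrable_sin ha0 ha1 z).ofReal.mul_const _)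

theorem integral_cexp {a : ℝ} (ha0 : 0 < a) (ha1 : a < 1) (z : ℝ) :
    ∫ x : ℝ, (Complex.exp (((z * x : ℝ) : ℂ) * Complex.I) - 1) ∂(nu a) =
      ((-|z| ^ a : ℝ) : ℂ) := by
  have h : (fun x : ℝ => Complex.exp (((z * x : ℝ) : ℂ) * Complex.I) - 1) = fun x : ℝ =>
      ((-(1 - Real.cos (z * x)) : ℝ) : ℂ) + ((Real.sin (z * x) : ℝ) : ℂ) * Complex.I := by
    ext x
    rw [cexp_eq]
  rw [h, integral_add (integrable_cos ha0 ha1 z).neg.ofReal
    ((integrable_sin ha0 ha1 z).ofReal.mul_const _), integral_mul_const]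
  have e1 : ∫ x : ℝ, ((-(1 - Real.cos (z * x)) : ℝ) : ℂ) ∂(nu a) = ((-|z| ^ a : ℝ) : ℂ) := by
    rw [integral_complex_ofReal, integral_neg, integral_cos ha0 ha1]
  have e2 : ∫ x : ℝ, ((Real.sin (z * x) : ℝ) : ℂ) ∂(nu a) = 0 := by
    rw [integral_complex_ofReal, integral_sin, Complex.ofReal_zero]
  rw [e1, e2]
  simp

end Pool.Agent.U147.Stab
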