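import Pool.Agent.U147.Stab.PRM

set_option autoImplicit false

open MeasureTheory ProbabilityTheory Set Filter Topology
open scoped NNReal ENNReal

namespace Pool.Agent.U147.Stab

variable {E : Type} [MeasurableSpace E] {ι : Type}
  (M : ι → Measure E) [∀ i, IsFiniteMeasure (M i)] [∀ i, NeZero (M i)]

/-- mean number of points of block `i` -/
noncomputable def lam (i : ι) : ℝ≥0 := (M i univ).toNNReal

/-- law of the points of block `i` -/
noncomputable def pr (i : ι) : Measure E := (M i univ)⁻¹ • M i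

instance (i : ι) : IsProbabilityMeasure (pr M i) := by
  unfold pr; infer_instance

/-- the law of the independent blocks -/
noncomputable def PP : Measure (ι → Blk E) := Measure.infinitePi (fun i => blk (lam M i) (pr M i))

instance : IsProbabilityMeasure (PP M) := by unfold PP; infer_instance

theorem lam_mul (i : ι) {g : E → ℂ} (hg : Measurable g) (hb : ∀ u, ‖g u‖ ≤ 1) :
    (lam M i : ℂ) * ((∫ u, g u ∂(pr M i)) - 1) = ∫ u, (g u - 1) ∂(M i) := by
  have hint : Integrable g (M i) :=
    Integrable.of_bound hg.aestronglyMeasurable 1 (ae_of_all _ hb)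
  rw [integral_sub hint (integrable_const _), pr, integral_smul_measure, lam]
  have h0 : (M i univ) ≠ 0 := by
    have := NeZero.ne (M i)
    simpa [Measure.measure_univ_eq_zero] using this
  have h1 : (M i univ) ≠ ∞ := measure_ne_top _ _
  have h2 : (M i univ).toReal ≠ 0 := (ENNReal.toReal_pos h0 h1).ne'
  simp only [integral_const, Complex.real_smul, mul_one, ENNReal.toReal_inv, Measure.real]
  have h3 : (((M i univ).toNNReal : ℝ≥0) : ℂ) = (((M i univ).toReal : ℝ) : ℂ) := rfl
  rw [h3]
  have h4 : (((M i univ).toReal : ℝ) : ℂ) ≠ 0 := by exact_mod_cast h2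
  push_cast
  field_simp

theorem integral_PP (S : Finset ι) {g : E → ℂ} (hg : Measurable g) (hb : ∀ u, ‖g u‖ ≤ 1) :
    ∫ ω : ι → Blk E, ∏ i ∈ S, ∏ j ∈ Finset.range (ω i).1, g ((ω i).2 j) ∂(PP M) =
      ∏ i ∈ S, Complex.exp (∫ u, (g u - 1) ∂(M i)) := by
  rw [PP, integral_prod_infinitePi (fun i : ι => blk (lam M i) (pr M i)) S
    (fun _ b => ∏ i ∈ Finset.range b.1, g (b.2 i)) (fun _ => measurable_bprod hg)]
  refine Finset.prod_congr rfl (fun i _ => ?_)
  rw [integral_blk _ _ hg hb, lam_mul M i hg hb]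

theorem charfun_tot [Countable ι] {h : E → ℝ} (hh : Measurable h)
    (hs : ∀ᵐ ω ∂(PP M), Summable fun i => bs h (ω i))
    (hi : Integrable (fun e => Complex.exp (h e * Complex.I) - 1) (Measure.sum M)) :
    ∫ ω, Complex.exp (((∑' i, bs h (ω i) : ℝ) : ℂ) * Complex.I) ∂(PP M) =
      Complex.exp (∫ e, (Complex.exp (h e * Complex.I) - 1) ∂(Measure.sum M)) := by
  have hgm : Measurable (fun e => Complex.exp (h e * Complex.I)) := by fun_prop
  have hb : ∀ u, ‖Complex.exp (h u * Complex.I)‖ ≤ 1 := fun u =>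
    (Complex.norm_exp_ofReal_mul_I _).le
  have h1 : Tendsto (fun S : Finset ι => ∫ ω : ι → Blk E,
      Complex.exp (((∑ i ∈ S, bs h (ω i) : ℝ) : ℂ) * Complex.I) ∂(PP M)) atTop
      (𝓝 (∫ ω, Complex.exp (((∑' i, bs h (ω i) : ℝ) : ℂ) * Complex.I) ∂(PP M))) := by
    apply tendsto_integral_filter_of_dominated_convergence (fun _ => (1 : ℝ))
    · refine Eventually.of_forall (fun S => Measurable.aestronglyMeasurable ?_)
      have : Measurable (fun ω : ι → Blk E => ∑ i ∈ S, bs h (ω i)) :=
        Finset.measurable_sum _ (fun i _ => (measurable_bs hh).comp (measurable_pi_apply i))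
      fun_prop
    · exact Eventually.of_forall (fun S => ae_of_all _ (fun ω =>
        (Complex.norm_exp_ofReal_mul_I _).le))
    · exact integrable_const _
    · filter_upwards [hs] with ω hω
      have h2 : Tendsto (fun S : Finset ι => ∑ i ∈ S, bs h (ω i)) atTop
        (𝓝 (∑' i, bs h (ω i))) := hω.hasSum
      exact (Complex.continuous_exp.tendsto _).comp
        (((Complex.continuous_ofReal.tendsto _).comp h2).mul_const _)
  have h2 : ∀ S : Finset ι, ∫ ω : ι → Blk E,
      Complex.exp (((∑ i ∈ S, bs h (ω i) : ℝ) : ℂ) * Complex.I) ∂(PP M) =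
      Complex.exp (∑ i ∈ S, ∫ e, (Complex.exp (h e * Complex.I) - 1) ∂(M i)) := by
    intro S
    rw [Complex.exp_sum, ← integral_PP M S hgm hb]
    congr with ω
    rw [Complex.ofReal_sum, Finset.sum_mul, Complex.exp_sum]
    refine Finset.prod_congr rfl (fun i _ => ?_)
    rw [bs, Complex.ofReal_sum, Finset.sum_mul, Complex.exp_sum]
  simp_rw [h2] at h1
  have h3 := hasSum_integral_measure hi
  have h4 : Tendsto (fun S : Finset ι =>
      Complex.exp (∑ i ∈ S, ∫ e, (Complex.exp (h e * Complex.I) - 1) ∂(M i))) atTop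
      (𝓝 (Complex.exp (∫ e, (Complex.exp (h e * Complex.I) - 1) ∂(Measure.sum M)))) :=
    (Complex.continuous_exp.tendsto _).comp h3
  exact tendsto_nhds_unique h1 h4

theorem campbell [Countable ι] {f : E → ℝ≥0∞} (hf : Measurable f) :
    ∫⁻ ω, ∑' i, bs f (ω i) ∂(PP M) = ∫⁻ e, f e ∂(Measure.sum M) := by
  rw [lintegral_tsum (f := fun (i : ι) (ω : ι → Blk E) => bs f (ω i))
      (fun i => ((measurable_bs hf).comp (measurable_pi_apply i)).aemeasurable),
    lintegral_sum_measure]
  congr with i
  have h1 := (measurePreserving_eval_infinitePi (fun i : ι => blk (lam M i) (pr M i)) i).lintegral_comp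
    (measurable_bs hf)
  have h2 : ∫⁻ ω, bs f (ω i) ∂(PP M) = ∫⁻ b, bs f b ∂(blk (lam M i) (pr M i)) := h1
  change ∫⁻ ω, bs f (ω i) ∂(PP M) = _
  rw [h2, lintegral_bs _ _ hf, pr, lintegral_smul_measure, lam,
    ENNReal.coe_toNNReal (measure_ne_top _ _), smul_eq_mul, ← mul_assoc]
  have h0 : (M i univ) ≠ 0 := by
    have := NeZero.ne (M i)
    simpa [Measure.measure_univ_eq_zero] using this
  rw [ENNReal.mul_inv_cancel h0 (measure_ne_top _ _), one_mul]

/-- each point of block `i` avoids `M i`-null sets -/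
theorem ae_points [Countable ι] {p : ι → E → Prop} (hp : ∀ i, ∀ᵐ e ∂(M i), p i e) :
    ∀ᵐ ω ∂(PP M), ∀ i j, p i ((ω i).2 j) := by
  rw [ae_all_iff]
  intro i
  rw [ae_all_iff]
  intro j
  have h1 : Measure.QuasiMeasurePreserving (fun ω : ι → Blk E => ω i) (PP M)
    (blk (lam M i) (pr M i)) :=
    (measurePreserving_eval_infinitePi (fun i : ι => blk (lam M i) (pr M i)) i).quasiMeasurePreserving
  have h2 : Measure.QuasiMeasurePreserving (fun b : Blk E => b.2) (blk (lam M i) (pr M i))
    (Measure.infinitePi fun _ : ℕ => pr M i) := by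
    unfold blk
    exact Measure.quasiMeasurePreserving_snd
  have h3 : Measure.QuasiMeasurePreserving (fun y : ℕ → E => y j)
    (Measure.infinitePi fun _ : ℕ => pr M i) (pr M i) :=
    (measurePreserving_eval_infinitePi (fun _ : ℕ => pr M i) j).quasiMeasurePreserving
  have h4 : ∀ᵐ e ∂(pr M i), p i e := by
    unfold pr
    exact Measure.ae_smul_measure (hp i) _
  exact ((h3.comp h2).comp h1).ae h4

end Pool.Agent.U147.Stab
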