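import Pool.Agent.U147.Stab.Exp
import Pool.Agent.U147.Stab.Tot

set_option autoImplicit false

open MeasureTheory ProbabilityTheory Set Filter Topology
open scoped NNReal ENNReal

namespace Pool.Agent.U147.Stab

/-- the jump sizes of level `m` -/
def Sl (m : ℕ) : Set ℝ := {x | x ≠ 0 ∧ ⌊|x|⁻¹⌋₊ = m}

theorem measurableSet_Sl (m : ℕ) : MeasurableSet (Sl m) := by
  unfold Sl
  have h1 : MeasurableSet {x : ℝ | x ≠ 0} := (measurableSet_singleton (0 : ℝ)).compl
  have h2 : Measurable (fun x : ℝ => ⌊|x|⁻¹⌋₊) := by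
    apply Nat.measurable_floor.comp
    fun_prop
  exact h1.inter (h2 (measurableSet_singleton m))

theorem disjoint_Sl : Pairwise (Function.onFun Disjoint Sl) := by
  intro i j hij
  rw [Function.onFun, Set.disjoint_left]
  rintro x ⟨_, h1⟩ ⟨_, h2⟩
  exact hij (h1.symm.trans h2)

theorem iUnion_Sl : ⋃ m, Sl m = {0}ᶜ := by
  ext x
  simp [Sl]

theorem min_of_Sl {m : ℕ} {x : ℝ} (hx : x ∈ Sl m) : 1 ≤ ((m : ℝ) + 1) * min 1 |x| := by
  obtain ⟨h0, h1⟩ := hx
  have h2 : |x|⁻¹ < (m : ℝ) + 1 := by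
    rw [← h1]
    exact Nat.lt_floor_add_one _
  have h3 : 0 < |x| := abs_pos.2 h0
  have hm : (0 : ℝ) ≤ m := Nat.cast_nonneg m
  rcases le_total 1 |x| with h | h
  · rw [min_eq_left h]; linarith
  · rw [min_eq_right h]
    rw [inv_lt_iff_one_lt_mul₀ h3] at h2
    linarith

theorem Ioo_sub_Sl (m : ℕ) : Ioo (((m : ℝ) + 1)⁻¹) (((m : ℝ) + 1 / 2)⁻¹) ⊆ Sl m := by
  intro x hx
  have hm : (0 : ℝ) ≤ m := Nat.cast_nonneg m
  have h0 : 0 < x := lt_trans (by positivity) hx.1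
  refine ⟨h0.ne', ?_⟩
  rw [abs_of_pos h0, Nat.floor_eq_iff (by positivity)]
  have h1 : x⁻¹ < (m : ℝ) + 1 := by
    rw [inv_lt_comm₀ h0 (by positivity)]
    exact hx.1
  have h2 : (m : ℝ) + 1 / 2 < x⁻¹ := by
    rw [lt_inv_comm₀ (by positivity) h0]
    exact hx.2
  exact ⟨by linarith, h1⟩

theorem nu_Sl_lt {a : ℝ} (ha0 : 0 < a) (ha1 : a < 1) (m : ℕ) : nu a (Sl m) < ∞ := by
  have h1 : nu a (Sl m) ≤ ENNReal.ofReal ((m : ℝ) + 1) * ∫⁻ x, ENNReal.ofReal (min 1 |x|) ∂(nu a) := by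
    rw [← lintegral_const_mul _ (by fun_prop), ← lintegral_indicator_one (measurableSet_Sl m)]
    refine lintegral_mono fun x => ?_
    by_cases hx : x ∈ Sl m
    · rw [indicator_of_mem hx, ← ENNReal.ofReal_mul (by positivity)]
      have := min_of_Sl hx
      simpa using this
    · rw [indicator_of_notMem hx]
      exact zero_le
  exact h1.trans_lt (ENNReal.mul_lt_top ENNReal.ofReal_lt_top (nu_min_lt ha0 ha1))

theorem nu_Sl_ne {a : ℝ} (ha0 : 0 < a) (ha1 : a < 1) (m : ℕ) : nu a (Sl m) ≠ 0 := by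
  unfold nu
  rw [withDensity_apply _ (measurableSet_Sl m)]
  apply ne_of_gt
  rw [setLIntegral_pos_iff (measurable_den a)]
  have h1 : Ioo (((m : ℝ) + 1)⁻¹) (((m : ℝ) + 1 / 2)⁻¹) ⊆
      (Function.support fun x => ENNReal.ofReal (dn a x / kap a)) ∩ Sl m := by
    intro x hx
    refine ⟨?_, Ioo_sub_Sl m hx⟩
    rw [Function.mem_support]
    apply ne_of_gt
    rw [ENNReal.ofReal_pos]
    have h0 : 0 < x := lt_trans (by positivity) hx.1
    apply div_pos _ (kap_pos ha0 ha1)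
    unfold dn
    exact Real.rpow_pos_of_pos (abs_pos.2 h0.ne') _
  refine lt_of_lt_of_le ?_ (measure_mono h1)
  rw [Real.volume_Ioo, ENNReal.ofReal_pos, sub_pos]
  have hm : (0 : ℝ) ≤ m := Nat.cast_nonneg m
  apply inv_strictAnti₀ (by positivity)
  linarith

/-- The intensity of the cell `p = (k, m)`: times in `(k, k + 1]`, jumps of level `m`. -/
noncomputable def MM (a : ℝ) (p : ℕ × ℕ) : Measure (ℝ × ℝ) :=
  ((volume : Measure ℝ).restrict (Ioc (p.1 : ℝ) (p.1 + 1))).prod ((nu a).restrict (Sl p.2))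

variable {a : ℝ} [ha : Fact (0 < a ∧ a < 1)]

instance (m : ℕ) : IsFiniteMeasure ((nu a).restrict (Sl m)) :=
  ⟨by rw [Measure.restrict_apply_univ]; exact nu_Sl_lt ha.out.1 ha.out.2 m⟩

instance (k : ℕ) : IsFiniteMeasure ((volume : Measure ℝ).restrict (Ioc (k : ℝ) (k + 1))) :=
  ⟨by rw [Measure.restrict_apply_univ]; simp⟩

instance (p : ℕ × ℕ) : IsFiniteMeasure (MM a p) := by unfold MM; infer_instance

instance (p : ℕ × ℕ) : NeZero (MM a p) := by
  refine ⟨fun h => ?_⟩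
  have h1 : MM a p univ = 0 := by rw [h]; simp
  rw [MM, ← univ_prod_univ, Measure.prod_prod, Measure.restrict_apply_univ,
    Measure.restrict_apply_univ, mul_eq_zero] at h1
  rcases h1 with h1 | h1
  · simp at h1
  · exact nu_Sl_ne ha.out.1 ha.out.2 _ h1

omit ha in
theorem sum_time : Measure.sum (fun k : ℕ => (volume : Measure ℝ).restrict
    (Ioc (k : ℝ) (k + 1))) = volume.restrict (Ioi 0) := by
  rw [← Measure.restrict_iUnion]
  · congr 1
    ext x
    simp only [mem_iUnion, mem_Ioc, mem_Ioi]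
    constructor
    · rintro ⟨k, h1, _⟩
      exact lt_of_le_of_lt (Nat.cast_nonneg k) h1
    · intro hx
      obtain ⟨k, hk⟩ : ∃ k, ⌈x⌉₊ = k + 1 := ⟨⌈x⌉₊ - 1, by
        have := Nat.ceil_pos.2 hx
        omega⟩
      refine ⟨k, ?_, ?_⟩
      · have h1 := Nat.lt_ceil.1 (show k < ⌈x⌉₊ by omega)
        exact h1
      · have h1 := Nat.le_ceil x
        rw [hk] at h1
        exact_mod_cast h1
  · intro i j hij
    rw [Function.onFun, Set.disjoint_left]
    rintro x ⟨h1, h2⟩ ⟨h3, h4⟩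
    apply hij
    have h5 : (i : ℝ) < j + 1 := by linarith
    have h6 : (j : ℝ) < i + 1 := by linarith
    have h5' : i < j + 1 := by exact_mod_cast h5
    have h6' : j < i + 1 := by exact_mod_cast h6
    omega
  · intro k; exact measurableSet_Ioc

omit ha in
theorem sum_level (a : ℝ) : Measure.sum (fun m : ℕ => (nu a).restrict (Sl m)) = nu a := by
  rw [← Measure.restrict_iUnion disjoint_Sl measurableSet_Sl, iUnion_Sl]
  apply Measure.restrict_eq_self_of_ae_mem
  rw [ae_iff]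
  have : {x : ℝ | x ∉ ({0}ᶜ : Set ℝ)} = {0} := by ext; simp
  rw [this]
  exact nu_zero a

omit ha in
theorem sum_MM : Measure.sum (MM a) = ((volume : Measure ℝ).restrict (Ioi 0)).prod (nu a) := by
  have h := Measure.prod_sum (fun k : ℕ => (volume : Measure ℝ).restrict (Ioc (k : ℝ) (k + 1)))
    (fun m : ℕ => (nu a).restrict (Sl m))
  rw [sum_time, sum_level] at h
  rw [h]
  rfl

end Pool.Agent.U147.Stab
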