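import Mathlib

/-!
# The Lévy measure of the symmetric stable process of index `a`, `0 < a < 1`
-/

set_option autoImplicit false

open MeasureTheory ProbabilityTheory Set Filter Topology
open scoped NNReal ENNReal

namespace Pool.Agent.U147.Stab

theorem lintegral_abs {f : ℝ → ℝ≥0∞} (hf : Measurable f) :
    ∫⁻ x : ℝ, f |x| = 2 * ∫⁻ x in Ioi (0 : ℝ), f x := by
  have h1 : ∫⁻ x in Ioi (0 : ℝ), f |x| = ∫⁻ x in Ioi (0 : ℝ), f x := by
    refine setLIntegral_congr_fun measurableSet_Ioi fun x hx => ?_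
    have : |x| = x := abs_of_pos hx
    simp only [this]
  have h2 : ∫⁻ x in Iic (0 : ℝ), f |x| = ∫⁻ x in Ioi (0 : ℝ), f |x| := by
    have h3 := (Measure.measurePreserving_neg (volume : Measure ℝ)).setLIntegral_comp_preimage
      (s := Iio (0 : ℝ)) measurableSet_Iio (f := fun x => f |x|) (hf.comp measurable_norm)
    simp only [abs_neg] at h3
    rw [setLIntegral_congr Iio_ae_eq_Iic.symm, ← h3]
    congr 2
    ext x
    simp
  rw [← lintegral_add_compl _ (measurableSet_Ioi (a := (0 : ℝ))), compl_Ioi, h2, h1, two_mul]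

theorem lintegral_scale {f : ℝ → ℝ≥0∞} (hf : Measurable f) {d : ℝ} (hd : 0 < d) :
    ∫⁻ x : ℝ, f x = ENNReal.ofReal d * ∫⁻ x : ℝ, f (d * x) := by
  have h1 := Real.map_volume_mul_left (a := d) hd.ne'
  have h2 : ∫⁻ x : ℝ, f (d * x) = ∫⁻ x, f x ∂(Measure.map (fun x => d * x) volume) := by
    rw [lintegral_map hf (measurable_const_mul d)]
  rw [h2, h1, lintegral_smul_measure, smul_eq_mul, ← mul_assoc, abs_of_pos (inv_pos.2 hd),
    ← ENNReal.ofReal_mul hd.le, mul_inv_cancel₀ hd.ne', ENNReal.ofReal_one, one_mul]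

/-- the unnormalised density -/
noncomputable def dn (a : ℝ) (x : ℝ) : ℝ := |x| ^ (-1 - a)

theorem dn_nonneg (a x : ℝ) : 0 ≤ dn a x := by unfold dn; positivity

theorem measurable_dn (a : ℝ) : Measurable (dn a) := by
  unfold dn
  fun_prop

theorem dn_scale (a : ℝ) {d : ℝ} (hd : 0 < d) (x : ℝ) : dn a (d * x) = d ^ (-1 - a) * dn a x := by
  unfold dn
  rw [abs_mul, abs_of_pos hd, Real.mul_rpow hd.le (abs_nonneg x)]

/-- `∫ min 1 |x| |x| ^ (-1 - a) dx < ∞` -/
theorem lint_min_lt {a : ℝ} (ha0 : 0 < a) (ha1 : a < 1) :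
    ∫⁻ x : ℝ, ENNReal.ofReal (min 1 |x| * dn a x) < ∞ := by
  have h1 := lintegral_abs (f := fun x => ENNReal.ofReal (min 1 x * x ^ (-1 - a))) (by fun_prop)
  have h0 : ∫⁻ x : ℝ, ENNReal.ofReal (min 1 |x| * dn a x) =
    ∫⁻ x : ℝ, (fun x => ENNReal.ofReal (min 1 x * x ^ (-1 - a))) |x| := rfl
  rw [h0, h1]
  apply ENNReal.mul_lt_top (by norm_num)
  have h2 : Ioi (0 : ℝ) = Ioc 0 1 ∪ Ioi 1 := (Ioc_union_Ioi_eq_Ioi zero_le_one).symm
  rw [h2]
  refine (lintegral_union_le _ _ _).trans_lt ?_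
  rw [ENNReal.add_lt_top]
  constructor
  · have h3 : IntegrableOn (fun x : ℝ => x ^ (-a)) (Ioc 0 1) := by
      have := intervalIntegral.intervalIntegrable_rpow' (a := 0) (b := 1) (r := -a) (by linarith)
      rwa [intervalIntegrable_iff_integrableOn_Ioc_of_le zero_le_one] at this
    refine lt_of_le_of_lt ?_ h3.lintegral_lt_top
    refine setLIntegral_mono' measurableSet_Ioc fun x hx => ?_
    apply ENNReal.ofReal_le_ofReal
    rw [min_eq_right hx.2]
    have : x ^ (-a) = x * x ^ (-1 - a) := by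
      rw [show -a = 1 + (-1 - a) by ring, Real.rpow_add hx.1, Real.rpow_one]
    rw [this]
  · have h3 : IntegrableOn (fun x : ℝ => x ^ (-1 - a)) (Ioi 1) :=
      integrableOn_Ioi_rpow_of_lt (by linarith) zero_lt_one
    refine lt_of_le_of_lt ?_ h3.lintegral_lt_top
    refine setLIntegral_mono' measurableSet_Ioi fun x hx => ?_
    apply ENNReal.ofReal_le_ofReal
    rw [min_eq_left (le_of_lt hx), one_mul]

/-- The normalising constant `∫ (1 - cos x) |x| ^ (-1 - a) dx`. -/
noncomputable def kap (a : ℝ) : ℝ := ∫ x : ℝ, (1 - Real.cos x) * dn a x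

theorem one_sub_cos_le (x : ℝ) : 1 - Real.cos x ≤ 2 * min 1 |x| := by
  rcases le_total 1 |x| with h | h
  · rw [min_eq_left h]
    have := Real.neg_one_le_cos x
    linarith
  · rw [min_eq_right h]
    have h1 := Real.one_sub_sq_div_two_le_cos (x := x)
    have h2 : x ^ 2 = |x| ^ 2 := (sq_abs x).symm
    have h3 := abs_nonneg x
    nlinarith

theorem int_min {a : ℝ} (ha0 : 0 < a) (ha1 : a < 1) :
    Integrable (fun x : ℝ => min 1 |x| * dn a x) := by
  refine ⟨?_, ?_⟩
  · have := measurable_dn a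
    apply Measurable.aestronglyMeasurable
    fun_prop
  · rw [hasFiniteIntegral_iff_ofReal]
    · exact lint_min_lt ha0 ha1
    · exact ae_of_all _ (fun x => mul_nonneg (le_min zero_le_one (abs_nonneg _)) (dn_nonneg _ _))

theorem int_cos {a : ℝ} (ha0 : 0 < a) (ha1 : a < 1) :
    Integrable (fun x : ℝ => (1 - Real.cos x) * dn a x) := by
  refine ((int_min ha0 ha1).const_mul 2).mono' ?_ ?_
  · have := measurable_dn a
    apply Measurable.aestronglyMeasurable
    fun_prop
  · refine ae_of_all _ fun x => ?_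
    rw [Real.norm_eq_abs, abs_of_nonneg (mul_nonneg (by linarith [Real.cos_le_one x])
      (dn_nonneg _ _)), ← mul_assoc]
    exact mul_le_mul_of_nonneg_right (one_sub_cos_le x) (dn_nonneg _ _)

theorem kap_pos {a : ℝ} (ha0 : 0 < a) (ha1 : a < 1) : 0 < kap a := by
  unfold kap
  rw [integral_pos_iff_support_of_nonneg
    (fun x => mul_nonneg (by linarith [Real.cos_le_one x]) (dn_nonneg _ _)) (int_cos ha0 ha1)]
  have h1 : Ioo (1 : ℝ) 2 ⊆ Function.support fun x : ℝ => (1 - Real.cos x) * dn a x := by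
    intro x hx
    rw [Function.mem_support]
    apply ne_of_gt
    apply mul_pos
    · have h2 : Real.cos x < 1 := by
        have hle := Real.cos_le_one x
        refine lt_of_le_of_ne hle fun h => ?_
        rw [Real.cos_eq_one_iff] at h
        obtain ⟨n, hn⟩ := h
        have h3 := Real.pi_gt_three
        have h5 : (0 : ℝ) < n := by
          by_contra hcon
          push Not at hcon
          nlinarith [hx.1]
        have h6 : (1 : ℝ) ≤ n := by
          have : (0 : ℤ) < n := by exact_mod_cast h5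
          exact_mod_cast this
        nlinarith [hx.2]
      linarith
    · unfold dn
      apply Real.rpow_pos_of_pos
      exact abs_pos.2 (by linarith [hx.1])
  refine lt_of_lt_of_le ?_ (measure_mono h1)
  simp

/-- The Lévy measure of the symmetric stable process of index `a`. -/
noncomputable def nu (a : ℝ) : Measure ℝ :=
  (volume : Measure ℝ).withDensity (fun x => ENNReal.ofReal (dn a x / kap a))

theorem measurable_den (a : ℝ) : Measurable (fun x => ENNReal.ofReal (dn a x / kap a)) := by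
  have := measurable_dn a
  fun_prop

theorem lintegral_nu (a : ℝ) {g : ℝ → ℝ≥0∞} (hg : Measurable g) :
    ∫⁻ x, g x ∂(nu a) = ∫⁻ x, ENNReal.ofReal (dn a x / kap a) * g x := by
  unfold nu
  rw [lintegral_withDensity_eq_lintegral_mul _ (measurable_den a) hg]
  rfl

instance (a : ℝ) : SFinite (nu a) := by unfold nu; infer_instance

theorem nu_zero (a : ℝ) : nu a {0} = 0 := by
  unfold nu
  exact withDensity_absolutelyContinuous _ _ (by simp)

theorem nu_min_lt {a : ℝ} (ha0 : 0 < a) (ha1 : a < 1) :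
    ∫⁻ x, ENNReal.ofReal (min 1 |x|) ∂(nu a) < ∞ := by
  rw [lintegral_nu a (by fun_prop)]
  have h1 : ∀ x : ℝ, ENNReal.ofReal (dn a x / kap a) * ENNReal.ofReal (min 1 |x|) =
      ENNReal.ofReal (1 / kap a) * ENNReal.ofReal (min 1 |x| * dn a x) := by
    intro x
    have := kap_pos ha0 ha1
    rw [← ENNReal.ofReal_mul (div_nonneg (dn_nonneg _ _) this.le),
      ← ENNReal.ofReal_mul (by positivity)]
    congr 1
    ring
  simp_rw [h1]
  have := measurable_dn a
  rw [lintegral_const_mul _ (by fun_prop)]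
  exact ENNReal.mul_lt_top ENNReal.ofReal_lt_top (lint_min_lt ha0 ha1)

/-- scaling of the Lévy measure -/
theorem nu_scale {a : ℝ} (ha0 : 0 < a) (ha1 : a < 1) {g : ℝ → ℝ≥0∞} (hg : Measurable g) {d : ℝ}
    (hd : 0 < d) : ∫⁻ x, g (d⁻¹ * x) ∂(nu a) = ENNReal.ofReal (d ^ (-a)) * ∫⁻ x, g x ∂(nu a) := by
  have hm := measurable_dn a
  rw [lintegral_nu a hg, lintegral_nu a (by fun_prop), lintegral_scale (by fun_prop) hd,
    ← lintegral_const_mul _ (by fun_prop), ← lintegral_const_mul _ (by fun_prop)]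
  congr with x
  rw [inv_mul_cancel_left₀ hd.ne', dn_scale a hd, ← mul_assoc, ← mul_assoc]
  congr 1
  have hk := kap_pos ha0 ha1
  rw [← ENNReal.ofReal_mul hd.le, ← ENNReal.ofReal_mul (by positivity)]
  congr 1
  have : d ^ (-a) = d * d ^ (-1 - a) := by
    rw [show -a = 1 + (-1 - a) by ring, Real.rpow_add hd, Real.rpow_one]
  rw [this]
  ring

end Pool.Agent.U147.Stab
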