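import Mathlib

/-!
# Poisson random measures

For a family `M i` of finite nonzero measures on `E` we construct independent blocks: block `i`
has a Poisson number of points with mean `M i univ`, which are independent with law proportional
to `M i`.
-/

set_option autoImplicit false

open MeasureTheory ProbabilityTheory Set Filter Topology
open scoped NNReal ENNReal

namespace Pool.Agent.U147.Stab

/-- One block: a number of points and a sequence of positions. -/
abbrev Blk (E : Type) := ℕ × (ℕ → E)

variable {E : Type} [MeasurableSpace E]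

/-- The law of a block with `Poisson r` points with law `p`. -/
noncomputable def blk (r : ℝ≥0) (p : Measure E) : Measure (Blk E) :=
  (poissonMeasure r).prod (Measure.infinitePi fun _ : ℕ => p)

instance (r : ℝ≥0) (p : Measure E) [IsProbabilityMeasure p] : IsProbabilityMeasure (blk r p) := by
  unfold blk; infer_instance

theorem integral_prod_infinitePi {ι : Type*} {X : ι → Type*} [∀ i, MeasurableSpace (X i)]
    (μ : ∀ i, Measure (X i)) [∀ i, IsProbabilityMeasure (μ i)] (s : Finset ι)
    (f : ∀ i, X i → ℂ) (hf : ∀ i, Measurable (f i)) :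
    ∫ y, ∏ i ∈ s, f i (y i) ∂(Measure.infinitePi μ) = ∏ i ∈ s, ∫ x, f i x ∂(μ i) := by
  have h := integral_restrict_infinitePi (μ := μ) (s := s)
    (f := fun y : (∀ i : s, X i) => ∏ i : s, f i (y i)) (by
      apply Measurable.aestronglyMeasurable
      exact Finset.measurable_prod _ (fun i _ => (hf i).comp (measurable_pi_apply i)))
  have h1 : ∀ y : (∀ i, X i), ∏ i ∈ s, f i (y i) = ∏ i : s, f i (s.restrict y i) := by
    intro y
    rw [← Finset.prod_coe_sort s (fun i => f i (y i))]
    rfl
  simp_rw [h1]
  rw [h]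
  rw [integral_fintype_prod_eq_prod (f := fun (i : s) (x : X i) => f i x)]
  rw [Finset.prod_coe_sort s (fun i => ∫ x, f i x ∂(μ i))]

theorem measurable_bprod {g : E → ℂ} (hg : Measurable g) :
    Measurable (fun b : Blk E => ∏ i ∈ Finset.range b.1, g (b.2 i)) := by
  apply measurable_from_prod_countable_right
  intro k
  simp only
  exact Finset.measurable_prod (Finset.range k) (fun i _ => hg.comp (measurable_pi_apply i))

theorem integral_blk (r : ℝ≥0) (p : Measure E) [IsProbabilityMeasure p] {g : E → ℂ}
    (hg : Measurable g) (hb : ∀ u, ‖g u‖ ≤ 1) :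
    ∫ b, ∏ i ∈ Finset.range b.1, g (b.2 i) ∂(blk r p) =
      Complex.exp (r * ((∫ u, g u ∂p) - 1)) := by
  have hint : Integrable (fun b : Blk E => ∏ i ∈ Finset.range b.1, g (b.2 i)) (blk r p) := by
    refine Integrable.of_bound (measurable_bprod hg).aestronglyMeasurable 1 (ae_of_all _ ?_)
    intro b
    rw [norm_prod]
    exact Finset.prod_le_one (fun i _ => norm_nonneg _) (fun i _ => hb _)
  rw [blk] at hint ⊢
  rw [integral_prod _ hint]
  have h1 : ∀ k : ℕ, ∫ U, ∏ i ∈ Finset.range k, g (U i) ∂(Measure.infinitePi fun _ : ℕ => p) =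
      (∫ u, g u ∂p) ^ k := by
    intro k
    rw [integral_prod_infinitePi (fun _ : ℕ => p) (Finset.range k) (fun _ => g) (fun _ => hg)]
    simp
  simp_rw [h1]
  rw [integral_poissonMeasure r]
  calc ∑' n : ℕ, (Real.exp (-r) * r ^ n / (n.factorial)) • (∫ u, g u ∂p) ^ n
      = ∑' n : ℕ, (Real.exp (-r) : ℂ) * ((r * (∫ u, g u ∂p)) ^ n / n.factorial) := by
        congr with n
        rw [Complex.real_smul]
        push_cast
        rw [mul_pow]
        ring
    _ = (Real.exp (-r) : ℂ) * ∑' n : ℕ, ((r * (∫ u, g u ∂p)) ^ n / n.factorial) := tsum_mul_left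
    _ = (Real.exp (-r) : ℂ) * Complex.exp (r * (∫ u, g u ∂p)) := by
        rw [(NormedSpace.expSeries_div_hasSum_exp (r * (∫ u, g u ∂p))).tsum_eq,
          Complex.exp_eq_exp_ℂ]
    _ = _ := by
        rw [Complex.ofReal_exp, ← Complex.exp_add]
        push_cast
        ring_nf

/-- the mean of a Poisson variable -/
theorem lintegral_poisson (r : ℝ≥0) : ∫⁻ n, (n : ℝ≥0∞) ∂(poissonMeasure r) = r := by
  have h1 : Integrable (fun n : ℕ => (n : ℝ)) (poissonMeasure r) := by
    have := integrable_poissonMeasure_iff (r := r) (f := fun n : ℕ => (n : ℝ))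
    rw [this]
    have h2 : Summable (fun n : ℕ => Real.exp (-r) * (r : ℝ) ^ n / (n.factorial) * n) := by
      rw [← summable_nat_add_iff 1]
      have h3 : ∀ n : ℕ, Real.exp (-r) * (r : ℝ) ^ (n + 1) / ((n + 1).factorial) * ((n + 1 : ℕ) : ℝ)
          = Real.exp (-r) * r * (r ^ n / n.factorial) := by
        intro n
        rw [Nat.factorial_succ]
        push_cast
        field_simp
        ring
      simp_rw [h3]
      exact (Real.summable_pow_div_factorial _).mul_left _
    simpa using h2
  have h4 : ∫ n, (n : ℝ) ∂(poissonMeasure r) = r := by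
    rw [integral_poissonMeasure]
    rw [Summable.tsum_eq_zero_add]
    · have h3 : ∀ n : ℕ, (Real.exp (-r) * (r : ℝ) ^ (n + 1) / ((n + 1).factorial)) •
          (((n + 1 : ℕ) : ℝ)) = Real.exp (-r) * r * (r ^ n / n.factorial) := by
        intro n
        rw [Nat.factorial_succ, smul_eq_mul]
        push_cast
        field_simp
        ring
      simp_rw [h3]
      rw [tsum_mul_left]
      have h5 : ∑' n : ℕ, ((r : ℝ) ^ n / n.factorial) = Real.exp r := by
        rw [(NormedSpace.expSeries_div_hasSum_exp (r : ℝ)).tsum_eq, Real.exp_eq_exp_ℝ]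
      rw [h5]
      simp only [Nat.cast_zero, smul_zero, zero_add]
      rw [mul_right_comm, ← Real.exp_add]
      simp
    · have := (integrable_poissonMeasure_iff (r := r) (f := fun n : ℕ => (n : ℝ))).1 h1
      simpa using this
  have h6 := ofReal_integral_eq_lintegral_ofReal h1 (ae_of_all _ (fun n => Nat.cast_nonneg n))
  rw [h4] at h6
  simp only [ENNReal.ofReal_natCast] at h6
  rw [← h6]
  simp

/-- sum over the points of a block -/
def bs {F : Type*} [AddCommMonoid F] (h : E → F) (b : Blk E) : F :=
  ∑ i ∈ Finset.range b.1, h (b.2 i)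

theorem measurable_bs {F : Type*} [AddCommMonoid F] [MeasurableSpace F] [MeasurableAdd₂ F]
    {h : E → F} (hh : Measurable h) : Measurable (bs h) := by
  apply measurable_from_prod_countable_right
  intro k
  simp only [bs]
  exact Finset.measurable_sum (Finset.range k) (fun i _ => hh.comp (measurable_pi_apply i))

theorem lintegral_bs (r : ℝ≥0) (p : Measure E) [IsProbabilityMeasure p] {f : E → ℝ≥0∞}
    (hf : Measurable f) : ∫⁻ b, bs f b ∂(blk r p) = r * ∫⁻ x, f x ∂p := by
  rw [blk, lintegral_prod _ (measurable_bs hf).aemeasurable]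
  have h1 : ∀ k : ℕ, ∫⁻ U, bs f (k, U) ∂(Measure.infinitePi fun _ : ℕ => p) =
      k * ∫⁻ x, f x ∂p := by
    intro k
    simp only [bs]
    rw [lintegral_finsetSum (Finset.range k) (f := fun i (U : ℕ → E) => f (U i))
      (fun i _ => hf.comp (measurable_pi_apply i))]
    have h2 : ∀ i : ℕ, ∫⁻ U, f (U i) ∂(Measure.infinitePi fun _ : ℕ => p) = ∫⁻ x, f x ∂p := by
      intro i
      have := (measurePreserving_eval_infinitePi (fun _ : ℕ => p) i).lintegral_comp hf
      exact this
    simp [h2]
  simp_rw [h1]
  rw [lintegral_mul_const _ (by fun_prop), lintegral_poisson]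

end Pool.Agent.U147.Stab
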