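import Pool.Agent.U147.Stab.Lev

set_option autoImplicit false

open MeasureTheory ProbabilityTheory Set Filter Topology
open scoped NNReal ENNReal

namespace Pool.Agent.U147.Stab

/-- sample space -/
abbrev Om := ℕ × ℕ → Blk (ℝ × ℝ)

/-- sum of the jumps up to time `t` -/
noncomputable def hX (t : ℝ) (e : ℝ × ℝ) : ℝ := if e.1 ≤ t then e.2 else 0

/-- absolute jumps up to time `t` -/
noncomputable def hA (t : ℝ) (e : ℝ × ℝ) : ℝ := if e.1 ≤ t then |e.2| else 0

/-- truncated absolute jumps up to time `t` -/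
noncomputable def hW (d : ℝ) (t : ℝ) (e : ℝ × ℝ) : ℝ := if e.1 ≤ t then min 1 |d⁻¹ * e.2| else 0

theorem measurable_hX (t : ℝ) : Measurable (hX t) :=
  Measurable.ite (measurable_fst measurableSet_Iic) measurable_snd measurable_const

theorem measurable_hW (d t : ℝ) : Measurable (hW d t) := by
  apply Measurable.ite (measurable_fst measurableSet_Iic) _ measurable_const
  fun_prop

/-- The process. -/
noncomputable def XX (t : ℝ) (ω : Om) : ℝ := ∑' p, bs (hX t) (ω p)

theorem measurable_XX (t : ℝ) : Measurable (XX t) :=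
  Measurable.tsum fun p => (measurable_bs (measurable_hX t)).comp (measurable_pi_apply p)

/-- the nice sample points -/
structure Nice (ω : Om) : Prop where
  pos : ∀ p j, 0 < ((ω p).2 j).1
  summ : ∀ t, Summable fun p => bs (hA t) (ω p)

theorem bs_nonneg {E : Type} {h : E → ℝ} (hh : ∀ e, 0 ≤ h e) (b : Blk E) : 0 ≤ bs h b :=
  Finset.sum_nonneg fun _ _ => hh _

theorem bs_mono {E : Type} {h g : E → ℝ} (hh : ∀ e, h e ≤ g e) (b : Blk E) : bs h b ≤ bs g b :=
  Finset.sum_le_sum fun _ _ => hh _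

theorem hA_nonneg (t : ℝ) (e : ℝ × ℝ) : 0 ≤ hA t e := by
  unfold hA; split_ifs <;> positivity

theorem hW_nonneg (d t : ℝ) (e : ℝ × ℝ) : 0 ≤ hW d t e := by
  unfold hW; split_ifs
  · exact le_min zero_le_one (abs_nonneg _)
  · exact le_rfl

theorem hA_mono {s t : ℝ} (h : s ≤ t) (e : ℝ × ℝ) : hA s e ≤ hA t e := by
  unfold hA
  by_cases h1 : e.1 ≤ s
  · rw [if_pos h1, if_pos (h1.trans h)]
  · rw [if_neg h1]; split_ifs <;> positivity

theorem hW_mono (d : ℝ) {s t : ℝ} (h : s ≤ t) (e : ℝ × ℝ) : hW d s e ≤ hW d t e := by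
  have h2 := hW_nonneg d t e
  unfold hW at h2 ⊢
  by_cases h1 : e.1 ≤ s
  · rw [if_pos h1, if_pos (h1.trans h)]
  · rw [if_neg h1]; exact h2

theorem abs_hX_le {s t : ℝ} (h : s ≤ t) (e : ℝ × ℝ) : |hX s e| ≤ hA t e := by
  unfold hX hA
  by_cases h1 : e.1 ≤ s
  · rw [if_pos h1, if_pos (h1.trans h)]
  · rw [if_neg h1, abs_zero]; split_ifs <;> positivity

theorem abs_bs_le {E : Type} {h g : E → ℝ} (hh : ∀ e, |h e| ≤ g e) (b : Blk E) :
    |bs h b| ≤ bs g b :=
  (Finset.abs_sum_le_sum_abs _ _).trans (Finset.sum_le_sum fun _ _ => hh _)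

theorem Nice.summX {ω : Om} (hω : Nice ω) (t : ℝ) : Summable fun p => bs (hX t) (ω p) :=
  Summable.of_norm_bounded (hω.summ t) fun _ => abs_bs_le (abs_hX_le le_rfl) _

theorem hX_right (t : ℝ) (e : ℝ × ℝ) : Tendsto (fun s => hX s e) (𝓝[≥] t) (𝓝 (hX t e)) := by
  refine tendsto_const_nhds.congr' ?_
  unfold hX
  by_cases h : e.1 ≤ t
  · filter_upwards [self_mem_nhdsWithin] with s hs
    rw [if_pos h, if_pos (h.trans hs)]
  · have : ∀ᶠ s in 𝓝 t, s < e.1 := eventually_lt_nhds (not_le.1 h)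
    filter_upwards [mem_nhdsWithin_of_mem_nhds this] with s hs
    rw [if_neg h, if_neg (not_le.2 hs)]

theorem hX_left (t : ℝ) (e : ℝ × ℝ) :
    Tendsto (fun s => hX s e) (𝓝[<] t) (𝓝 (if e.1 < t then e.2 else 0)) := by
  refine tendsto_const_nhds.congr' ?_
  unfold hX
  by_cases h : e.1 < t
  · have : ∀ᶠ s in 𝓝 t, e.1 < s := eventually_gt_nhds h
    filter_upwards [mem_nhdsWithin_of_mem_nhds this] with s hs
    rw [if_pos h, if_pos hs.le]
  · filter_upwards [self_mem_nhdsWithin] with s hs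
    rw [if_neg h, if_neg (not_le.2 (lt_of_lt_of_le hs (not_lt.1 h)))]

theorem bs_tendsto {E : Type} {l : Filter ℝ} {f : ℝ → E → ℝ} {g : E → ℝ}
    (h : ∀ e, Tendsto (fun s => f s e) l (𝓝 (g e))) (b : Blk E) :
    Tendsto (fun s => bs (f s) b) l (𝓝 (bs g b)) :=
  tendsto_finsetSum _ fun _ _ => h _

theorem Nice.right {ω : Om} (hω : Nice ω) (t : ℝ) :
    ContinuousWithinAt (fun s => XX s ω) (Ici t) t := by
  apply tendsto_tsum_of_dominated_convergence (hω.summ (t + 1))
  · intro p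
    exact bs_tendsto (hX_right t) (ω p)
  · have : ∀ᶠ s in 𝓝 t, s < t + 1 := eventually_lt_nhds (by linarith)
    filter_upwards [mem_nhdsWithin_of_mem_nhds this] with s hs p
    exact abs_bs_le (abs_hX_le hs.le) _

theorem Nice.left {ω : Om} (hω : Nice ω) (t : ℝ) :
    ∃ l, Tendsto (fun s => XX s ω) (𝓝[<] t) (𝓝 l) := by
  refine ⟨_, tendsto_tsum_of_dominated_convergence (hω.summ t)
    (fun p => bs_tendsto (hX_left t) (ω p)) ?_⟩
  filter_upwards [self_mem_nhdsWithin] with s hs p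
  exact abs_bs_le (abs_hX_le (le_of_lt hs)) _

theorem Nice.zero {ω : Om} (hω : Nice ω) : XX 0 ω = 0 := by
  unfold XX
  have : ∀ p, bs (hX 0) (ω p) = 0 := by
    intro p
    apply Finset.sum_eq_zero
    intro j _
    unfold hX
    rw [if_neg (not_le.2 (hω.pos p j))]
  simp [this]

/-- from the truncated to the full sums -/
theorem summ_of_trunc {ω : Om} {t : ℝ} (h : Summable fun p => bs (hW 1 t) (ω p)) :
    Summable fun p => bs (hA t) (ω p) := by
  refine h.congr_cofinite ?_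
  have h1 := h.tendsto_cofinite_zero
  have h2 : ∀ᶠ p in cofinite, bs (hW 1 t) (ω p) < 1 := h1.eventually_lt_const zero_lt_one
  filter_upwards [h2] with p hp
  refine Finset.sum_congr rfl fun j hj => ?_
  have h3 : hW 1 t ((ω p).2 j) ≤ bs (hW 1 t) (ω p) :=
    Finset.single_le_sum (f := fun j => hW 1 t ((ω p).2 j)) (fun i _ => hW_nonneg 1 t _) hj
  have h4 := h3.trans_lt hp
  unfold hW at h4 ⊢
  unfold hA
  split_ifs with h5
  · rw [if_pos h5] at h4
    simp only [inv_one, one_mul] at h4 ⊢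
    rcases min_lt_iff.1 h4 with h6 | h6
    · exact absurd h6 (lt_irrefl _)
    · exact min_eq_right h6.le
  · rfl

variable {a : ℝ} [ha : Fact (0 < a ∧ a < 1)]

/-- the mean of the truncated sum -/
theorem lintegral_hW {d t : ℝ} (hd : 0 < d) :
    ∫⁻ e, ENNReal.ofReal (hW d t e) ∂(Measure.sum (MM a)) =
      ENNReal.ofReal t * (ENNReal.ofReal (d ^ (-a)) * ∫⁻ x, ENNReal.ofReal (min 1 |x|) ∂(nu a)) := by
  rw [sum_MM, lintegral_prod _ (by
    have := measurable_hW d t
    fun_prop)]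
  have h1 : ∀ s : ℝ, ∫⁻ x, ENNReal.ofReal (hW d t (s, x)) ∂(nu a) =
      (Iic t).indicator (fun _ => ENNReal.ofReal (d ^ (-a)) *
        ∫⁻ x, ENNReal.ofReal (min 1 |x|) ∂(nu a)) s := by
    intro s
    unfold hW
    by_cases h : s ≤ t
    · rw [indicator_of_mem (show s ∈ Iic t from h)]
      simp only [if_pos h]
      exact nu_scale ha.out.1 ha.out.2 (g := fun x => ENNReal.ofReal (min 1 |x|)) (by fun_prop) hd
    · rw [indicator_of_notMem (show s ∉ Iic t from h)]
      simp only [if_neg h, ENNReal.ofReal_zero, lintegral_zero]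
  simp_rw [h1]
  rw [lintegral_indicator measurableSet_Iic, lintegral_const, Measure.restrict_apply_univ,
    Measure.restrict_apply measurableSet_Iic, mul_comm]
  congr 1
  rw [inter_comm, Ioi_inter_Iic, Real.volume_Ioc, sub_zero]

theorem ofReal_bs {E : Type} {h : E → ℝ} (hh : ∀ e, 0 ≤ h e) (b : Blk E) :
    bs (fun e => ENNReal.ofReal (h e)) b = ENNReal.ofReal (bs h b) := by
  unfold bs
  rw [ENNReal.ofReal_sum_of_nonneg fun _ _ => hh _]

/-- mean of the truncated sum -/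
theorem mean_W {d t : ℝ} (hd : 0 < d) :
    ∫⁻ ω, ∑' p, ENNReal.ofReal (bs (hW d t) (ω p)) ∂(PP (MM a)) =
      ENNReal.ofReal t * (ENNReal.ofReal (d ^ (-a)) * ∫⁻ x, ENNReal.ofReal (min 1 |x|) ∂(nu a)) := by
  rw [← lintegral_hW hd, ← campbell (MM a) (by
    have := measurable_hW d t
    fun_prop)]
  simp_rw [ofReal_bs (hW_nonneg d t)]

theorem ae_summ (d : ℝ) (hd : 0 < d) (t : ℝ) :
    ∀ᵐ ω ∂(PP (MM a)), Summable fun p => bs (hW d t) (ω p) := by
  have h1 : ∫⁻ ω, ∑' p, ENNReal.ofReal (bs (hW d t) (ω p)) ∂(PP (MM a)) ≠ ∞ := by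
    rw [mean_W hd]
    exact (ENNReal.mul_lt_top ENNReal.ofReal_lt_top
      (ENNReal.mul_lt_top ENNReal.ofReal_lt_top (nu_min_lt ha.out.1 ha.out.2))).ne
  have hm : Measurable fun ω : Om => ∑' p, ENNReal.ofReal (bs (hW d t) (ω p)) := by
    apply Measurable.tsum
    intro p
    apply Measurable.ennreal_ofReal
    exact (measurable_bs (measurable_hW d t)).comp (measurable_pi_apply p)
  have h2 := ae_lt_top hm h1
  filter_upwards [h2] with ω hω
  have h3 := ENNReal.summable_toReal hω.ne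
  refine h3.congr fun p => ?_
  rw [ENNReal.toReal_ofReal (bs_nonneg (hW_nonneg d t) _)]

theorem ae_nice : ∀ᵐ ω ∂(PP (MM a)), Nice ω := by
  have h1 : ∀ᵐ ω ∂(PP (MM a)), ∀ T : ℕ, Summable fun p => bs (hA T) (ω p) := by
    rw [ae_all_iff]
    intro T
    filter_upwards [ae_summ 1 one_pos (T : ℝ)] with ω hω
    exact summ_of_trunc hω
  have h2 : ∀ᵐ ω ∂(PP (MM a)), ∀ p j, 0 < ((ω p).2 j).1 := by
    apply ae_points (MM a) (p := fun _ e => 0 < e.1)
    intro p
    unfold MM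
    have h3 : ∀ᵐ s ∂((volume : Measure ℝ).restrict (Ioc (p.1 : ℝ) (p.1 + 1))), 0 < s := by
      filter_upwards [ae_restrict_mem measurableSet_Ioc] with s hs
      exact lt_of_le_of_lt (Nat.cast_nonneg _) hs.1
    exact Measure.quasiMeasurePreserving_fst.ae h3
  filter_upwards [h1, h2] with ω h3 h4
  refine ⟨h4, fun t => ?_⟩
  obtain ⟨T, hT⟩ := exists_nat_ge t
  exact Summable.of_nonneg_of_le (fun p => bs_nonneg (hA_nonneg t) _)
    (fun p => bs_mono (hA_mono hT) _) (h3 T)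

end Pool.Agent.U147.Stab
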